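import Mathlib

/-!
# From a matching to a cyclic permutation

`μ` is an involution of a set `S` with an even number of elements in every left coset of `H`, which
connects the cosets. There is a cyclic permutation `σ` of `G` with `σ x = μ x` for half of the
elements of `S` (one end of every pair) and `σ x ∈ x H` for all other elements.
-/

set_option autoImplicit false
set_option linter.unusedSectionVars false

namespace Pool.Agent.U122.HX

open Finset

/-! ### an orientation of the union of two matchings -/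

section Orient

variable {α : Type*} [Finite α]

lemma orient (μ ν : Equiv.Perm α) (hμ : ∀ x, μ (μ x) = x) (hν : ∀ x, ν (ν x) = x)
    (hμf : ∀ x, μ x ≠ x) (hνf : ∀ x, ν x ≠ x) :
    ∃ O : Set α, (∀ x, x ∈ O ↔ μ x ∉ O) ∧ (∀ x, x ∈ O ↔ ν x ∉ O) := by
  classical
  have hμm : μ * μ = 1 := Equiv.ext hμ
  have hνm : ν * ν = 1 := Equiv.ext hν
  set φ : Equiv.Perm α := μ * ν with hφ
  have hinv : φ⁻¹ = ν * μ := by
    rw [hφ, mul_inv_rev, inv_eq_of_mul_eq_one_right hμm, inv_eq_of_mul_eq_one_right hνm]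
  have hsemi : SemiconjBy μ φ φ⁻¹ := by
    rw [SemiconjBy, hinv, hφ, ← mul_assoc, hμm, one_mul, mul_assoc, hμm, mul_one]
  have hz : ∀ (j : ℤ) (s : α), μ ((φ ^ j) s) = (φ ^ (-j)) (μ s) := by
    intro j s
    have h1 := hsemi.zpow_right j
    rw [SemiconjBy, inv_zpow', ] at h1
    exact DFunLike.congr_fun h1 s
  have hne : ∀ s, ¬ φ.SameCycle s (μ s) := by
    rintro s ⟨i, hi⟩
    rcases Int.even_or_odd' i with ⟨j, rfl | rfl⟩
    · apply hμf ((φ ^ j) s)
      rw [hz, ← hi, ← Equiv.Perm.mul_apply, ← zpow_add]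
      congr 2
      ring
    · set t := (φ ^ j) s with ht
      have h1 : μ t = φ t := by
        rw [ht, hz, ← hi, ← Equiv.Perm.mul_apply, ← zpow_add, ← Equiv.Perm.mul_apply, ← zpow_one_add]
        congr 2
        ring
      rw [hφ, Equiv.Perm.mul_apply] at h1
      exact hνf t (μ.injective h1).symm
  have h1 : ∀ s, φ.SameCycle (ν s) (μ s) := by
    intro s
    refine ⟨1, ?_⟩
    rw [zpow_one, hφ, Equiv.Perm.mul_apply, hν]
  have h2 : ∀ s, φ.SameCycle s (μ (ν s)) := fun s => ⟨1, by rw [zpow_one]; rfl⟩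
  let Q := Quotient (Equiv.Perm.SameCycle.setoid φ)
  have : Finite Q := Quotient.finite _
  obtain ⟨f, hf⟩ := exists_injective_nat Q
  let g : α → ℕ := fun s => f (Quotient.mk _ s)
  have hg : ∀ s t, g s = g t ↔ φ.SameCycle s t := by
    intro s t
    constructor
    · intro h
      exact Quotient.exact (hf h)
    · intro h
      exact congrArg f (Quotient.sound h)
  refine ⟨{s | g s < g (μ s)}, fun s => ?_, fun s => ?_⟩
  · rw [Set.mem_ofPred_eq, Set.mem_ofPred_eq, hμ]
    have := (hg s (μ s)).not.2 (hne s)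
    omega
  · rw [Set.mem_ofPred_eq, Set.mem_ofPred_eq, (hg (ν s) (μ s)).2 (h1 s),
      ← (hg s (μ (ν s))).2 (h2 s)]
    have := (hg s (μ s)).not.2 (hne s)
    omega

end Orient

/-! ### pairing of a set with an even number of elements -/

lemma pairing {α : Type*} [DecidableEq α] (T : Finset α) (hT : Even T.card) :
    ∃ ν : α → α, ∀ z ∈ T, ν z ∈ T ∧ ν z ≠ z ∧ ν (ν z) = z := by
  let e := T.equivFin
  refine ⟨fun z => if h : z ∈ T then (e.symm (e ⟨z, h⟩).rev : α) else z, fun z hz => ?_⟩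
  have h1 : ∀ (z : α) (h : z ∈ T), (if h : z ∈ T then (e.symm (e ⟨z, h⟩).rev : α) else z) =
    e.symm (e ⟨z, h⟩).rev := fun z h => dif_pos h
  have h2 : ((e.symm (e ⟨z, hz⟩).rev : T) : α) ∈ T := (e.symm (e ⟨z, hz⟩).rev).2
  simp only [h1 z hz]
  refine ⟨h2, ?_, ?_⟩
  · intro h3
    have h4 : e.symm (e ⟨z, hz⟩).rev = ⟨z, hz⟩ := Subtype.ext h3
    rw [Equiv.symm_apply_eq] at h4
    have h5 := congrArg Fin.val h4
    rw [Fin.val_rev] at h5
    have h6 := (e ⟨z, hz⟩).isLt
    obtain ⟨m, hm⟩ := hT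
    omega
  · rw [h1 _ h2]
    simp

/-! ### merging two cycles -/

section Merge

variable {α : Type*} [DecidableEq α] [Finite α]

lemma merge_aux (σ : Equiv.Perm α) {x y : α} (hxy : ¬ σ.SameCycle x y) (n : ℕ) :
    (σ * Equiv.swap x y).SameCycle (σ x) ((σ ^ (n + 1)) x) := by
  induction n with
  | zero =>
    rw [zero_add, pow_one]
  | succ n ih =>
    set z := (σ ^ (n + 1)) x with hz
    have h1 : (σ ^ (n + 1 + 1)) x = σ z := by rw [pow_succ', Equiv.Perm.mul_apply]
    rw [h1]
    by_cases hzx : z = x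
    · rw [hzx]
    · have hzy : z ≠ y := by
        intro h
        apply hxy
        exact ⟨(n + 1 : ℕ), by rw [zpow_natCast, ← hz, h]⟩
      have h2 : (σ * Equiv.swap x y) z = σ z := by
        rw [Equiv.Perm.mul_apply, Equiv.swap_apply_of_ne_of_ne hzx hzy]
      rw [← h2, Equiv.Perm.sameCycle_apply_right]
      exact ih

lemma merge (σ : Equiv.Perm α) {x y : α} (hxy : ¬ σ.SameCycle x y) {z : α}
    (hz : σ.SameCycle x z ∨ σ.SameCycle y z) : (σ * Equiv.swap x y).SameCycle x z := by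
  have hyx : ¬ σ.SameCycle y x := fun h => hxy h.symm
  have key : ∀ {x y : α} (_ : ¬ σ.SameCycle x y) {z : α}, σ.SameCycle x z →
      (σ * Equiv.swap x y).SameCycle (σ x) z := by
    intro x y hxy z hz
    obtain ⟨i, hi, -, rfl⟩ := hz.exists_pow_eq''
    obtain ⟨n, rfl⟩ : ∃ n, i = n + 1 := ⟨i - 1, by omega⟩
    exact merge_aux σ hxy n
  have h1 : (σ * Equiv.swap x y).SameCycle (σ x) x := key hxy (Equiv.Perm.SameCycle.refl _ _)
  have h2 : (σ * Equiv.swap x y) x = σ y := by
    rw [Equiv.Perm.mul_apply, Equiv.swap_apply_left]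
  have h3 : (σ * Equiv.swap x y).SameCycle x (σ y) := ⟨1, by rw [zpow_one, h2]⟩
  rcases hz with hz | hz
  · exact h1.symm.trans (key hxy hz)
  · have h4 := key hyx hz
    rw [Equiv.swap_comm] at h4
    exact h3.trans h4

end Merge

/-! ### the cyclic permutation -/

section Asm

variable {G : Type*} [Group G] [Fintype G] [DecidableEq G]

theorem assemble (H : Subgroup G) (S : Finset G) (μ : G → G)
    (hμS : ∀ z ∈ S, μ z ∈ S) (hμ : ∀ z ∈ S, μ (μ z) = z) (hμf : ∀ z ∈ S, μ z ≠ z)
    (heven : ∀ T : Finset G, (∃ q : G ⧸ H, ∀ z, z ∈ T ↔ z ∈ S ∧ (z : G ⧸ H) = q) → Even T.card)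
    (hconn : ∀ Y : Set G, (∀ x ∈ Y, ∀ h ∈ H, x * h ∈ Y) → (∀ z ∈ S, z ∈ Y → μ z ∈ Y) →
      (1 : G) ∈ Y → ∀ g, g ∈ Y) :
    ∃ (σ : Equiv.Perm G), (∀ x, σ x = μ x ∧ x ∈ S ∨ x⁻¹ * σ x ∈ H) ∧
      ∀ x y, σ.SameCycle x y := by
  classical
  -- the pairing
  have hpair : ∀ q : G ⧸ H, ∃ ν : G → G, ∀ z ∈ S, (z : G ⧸ H) = q →
      (ν z ∈ S ∧ (ν z : G ⧸ H) = q) ∧ ν z ≠ z ∧ ν (ν z) = z := by
    intro q
    obtain ⟨ν, hν⟩ := pairing (S.filter fun z : G => ((z : G) : G ⧸ H) = q)
      (heven _ ⟨q, fun z => by rw [Finset.mem_filter]⟩)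
    refine ⟨ν, fun z hz hzq => ?_⟩
    have := hν z (Finset.mem_filter.2 ⟨hz, hzq⟩)
    rwa [Finset.mem_filter] at this
  choose N hN using hpair
  set ν : G → G := fun z => N (z : G ⧸ H) z with hνdef
  have hν1 : ∀ z ∈ S, ν z ∈ S := fun z hz => (hN _ z hz rfl).1.1
  have hν2 : ∀ z ∈ S, (ν z : G ⧸ H) = (z : G ⧸ H) := fun z hz => (hN _ z hz rfl).1.2
  have hν3 : ∀ z ∈ S, ν z ≠ z := fun z hz => (hN _ z hz rfl).2.1
  have hν4 : ∀ z ∈ S, ν (ν z) = z := by
    intro z hz
    have h1 := (hN _ z hz rfl).2.2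
    rw [hνdef]
    simp only
    have h2 := hν2 z hz
    rw [hνdef] at h2
    simp only at h2
    rw [h2]
    exact h1
  -- the orientation
  let μ' : Equiv.Perm S := Function.Involutive.toPerm (fun z => ⟨μ z, hμS z z.2⟩)
    (fun z => Subtype.ext (hμ z z.2))
  let ν' : Equiv.Perm S := Function.Involutive.toPerm (fun z => ⟨ν z, hν1 z z.2⟩)
    (fun z => Subtype.ext (hν4 z z.2))
  obtain ⟨O, hO1, hO2⟩ := orient μ' ν' (fun z => Subtype.ext (hμ z z.2))
    (fun z => Subtype.ext (hν4 z z.2)) (fun z h => hμf z z.2 (congrArg Subtype.val h))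
    (fun z h => hν3 z z.2 (congrArg Subtype.val h))
  set P : G → Prop := fun z => ∃ h : z ∈ S, (⟨z, h⟩ : S) ∈ O with hP
  have hPS : ∀ z, P z → z ∈ S := fun z h => h.1
  have hPμ : ∀ z ∈ S, (P z ↔ ¬ P (μ z)) := by
    intro z hz
    have h1 := hO1 ⟨z, hz⟩
    have h2 : P z ↔ (⟨z, hz⟩ : S) ∈ O := ⟨fun h => h.2, fun h => ⟨hz, h⟩⟩
    have h3 : P (μ z) ↔ μ' ⟨z, hz⟩ ∈ O := ⟨fun h => h.2, fun h => ⟨hμS z hz, h⟩⟩
    rw [h2, h3]
    exact h1
  have hPν : ∀ z ∈ S, (P z ↔ ¬ P (ν z)) := by
    intro z hz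
    have h1 := hO2 ⟨z, hz⟩
    have h2 : P z ↔ (⟨z, hz⟩ : S) ∈ O := ⟨fun h => h.2, fun h => ⟨hz, h⟩⟩
    have h3 : P (ν z) ↔ ν' ⟨z, hz⟩ ∈ O := ⟨fun h => h.2, fun h => ⟨hν1 z hz, h⟩⟩
    rw [h2, h3]
    exact h1
  -- the first permutation
  let σ0 : Equiv.Perm G :=
    { toFun := fun x => if x ∈ S then (if P x then μ x else ν x) else x
      invFun := fun x => if x ∈ S then (if P x then ν x else μ x) else x
      left_inv := by
        intro x
        by_cases hx : x ∈ S
        · by_cases hp : P x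
          · have h1 := (hPμ x hx).1 hp
            simp [hx, hp, h1, hμS x hx, hμ x hx]
          · have h1 : P (ν x) := by
              by_contra h
              exact hp ((hPν x hx).2 h)
            simp [hx, hp, h1, hν1 x hx, hν4 x hx]
        · simp [hx]
      right_inv := by
        intro x
        by_cases hx : x ∈ S
        · by_cases hp : P x
          · have h1 := (hPν x hx).1 hp
            simp [hx, hp, h1, hν1 x hx, hν4 x hx]
          · have h1 : P (μ x) := by
              by_contra h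
              exact hp ((hPμ x hx).2 h)
            simp [hx, hp, h1, hμS x hx, hμ x hx]
        · simp [hx] }
  set R : Equiv.Perm G → Prop := fun σ => ∀ x, (P x → σ x = μ x) ∧ (¬ P x → x⁻¹ * σ x ∈ H) with hR
  have hR0 : R σ0 := by
    intro x
    constructor
    · intro hp
      have hx := hPS x hp
      show (if x ∈ S then (if P x then μ x else ν x) else x) = μ x
      rw [if_pos hx, if_pos hp]
    · intro hp
      show x⁻¹ * (if x ∈ S then (if P x then μ x else ν x) else x) ∈ H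
      by_cases hx : x ∈ S
      · rw [if_pos hx, if_neg hp, ← QuotientGroup.eq]
        exact (hν2 x hx).symm
      · rw [if_neg hx, inv_mul_cancel]
        exact H.one_mem
  -- a permutation with the largest cycle of `1`
  obtain ⟨σ, hσ, hmax⟩ : ∃ σ, R σ ∧ ∀ σ', R σ' →
      (univ.filter fun z => σ'.SameCycle 1 z).card ≤ (univ.filter fun z => σ.SameCycle 1 z).card := by
    obtain ⟨σ, hσ, hm⟩ := Finset.exists_max_image (univ.filter R)
      (fun σ => (univ.filter fun z => σ.SameCycle 1 z).card) ⟨σ0, by simpa using hR0⟩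
    rw [Finset.mem_filter] at hσ
    exact ⟨σ, hσ.2, fun σ' h' => hm σ' (by simpa using h')⟩
  -- steps inside a coset do not leave the cycle
  have hcos : ∀ x y, ¬ P x → ¬ P y → x⁻¹ * y ∈ H → σ.SameCycle 1 x → σ.SameCycle 1 y := by
    intro x y hx hy hxy h1x
    by_contra h1y
    have hnxy : ¬ σ.SameCycle x y := fun h => h1y (h1x.trans h)
    have hRσ' : R (σ * Equiv.swap x y) := by
      intro z
      rw [Equiv.Perm.mul_apply]
      by_cases hzx : z = x
      · subst hzx
        rw [Equiv.swap_apply_left]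
        refine ⟨fun h => absurd h hx, fun _ => ?_⟩
        have h2 := (hσ y).2 hy
        have h3 := H.mul_mem hxy h2
        rwa [mul_assoc, mul_inv_cancel_left] at h3
      · by_cases hzy : z = y
        · subst hzy
          rw [Equiv.swap_apply_right]
          refine ⟨fun h => absurd h hy, fun _ => ?_⟩
          have h2 := (hσ x).2 hx
          have h3 := H.mul_mem (H.inv_mem hxy) h2
          rwa [mul_inv_rev, inv_inv, mul_assoc, mul_inv_cancel_left] at h3
        · rw [Equiv.swap_apply_of_ne_of_ne hzx hzy]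
          exact hσ z
    have h4 := hmax _ hRσ'
    have h5 : (univ.filter fun z => σ.SameCycle 1 z) ⊂
        (univ.filter fun z => (σ * Equiv.swap x y).SameCycle 1 z) := by
      have h1x' : (σ * Equiv.swap x y).SameCycle x 1 := merge σ hnxy (Or.inl h1x.symm)
      refine ⟨?_, fun h => ?_⟩
      · intro z hz
        rw [Finset.mem_filter] at hz ⊢
        exact ⟨hz.1, h1x'.symm.trans (merge σ hnxy (Or.inl (h1x.symm.trans hz.2)))⟩
      · have h6 : y ∈ (univ.filter fun z => (σ * Equiv.swap x y).SameCycle 1 z) := by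
          rw [Finset.mem_filter]
          exact ⟨Finset.mem_univ _,
            h1x'.symm.trans (merge σ hnxy (Or.inr (Equiv.Perm.SameCycle.refl _ _)))⟩
        have := h h6
        rw [Finset.mem_filter] at this
        exact h1y this.2
    exact absurd (Finset.card_lt_card h5) (not_lt_of_ge h4)
  have hinvself : ∀ x, σ (σ⁻¹ x) = x := fun x => σ.apply_symm_apply x
  -- every element lies in the cycle of an element of its coset outside `P`
  have hprev : ∀ x, ∃ y, ¬ P y ∧ y⁻¹ * x ∈ H ∧ σ.SameCycle y x := by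
    intro x
    by_cases hx : P x
    · refine ⟨σ⁻¹ x, ?_, ?_, ?_⟩
      · intro hy
        have h1 := (hσ _).1 hy
        rw [hinvself] at h1
        have h2 := (hPμ _ (hPS _ hy)).1 hy
        rw [← h1] at h2
        exact h2 hx
      · by_cases hy : P (σ⁻¹ x)
        · exfalso
          have h1 := (hσ _).1 hy
          rw [hinvself] at h1
          have h2 := (hPμ _ (hPS _ hy)).1 hy
          rw [← h1] at h2
          exact h2 hx
        · have h3 := (hσ _).2 hy
          rwa [hinvself] at h3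
      · exact ⟨1, by rw [zpow_one, hinvself]⟩
    · exact ⟨x, hx, by rw [inv_mul_cancel]; exact H.one_mem, Equiv.Perm.SameCycle.refl _ _⟩
  have hcos' : ∀ x y, x⁻¹ * y ∈ H → σ.SameCycle 1 x → σ.SameCycle 1 y := by
    intro x y hxy h1x
    obtain ⟨x', hx', hxx', hsx⟩ := hprev x
    obtain ⟨y', hy', hyy', hsy⟩ := hprev y
    refine (hcos x' y' hx' hy' ?_ (h1x.trans hsx.symm)).trans hsy
    have h1 := H.mul_mem (H.mul_mem hxx' hxy) (H.inv_mem hyy')
    have h2 : x'⁻¹ * x * (x⁻¹ * y) * (y'⁻¹ * y)⁻¹ = x'⁻¹ * y' := by group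
    rwa [h2] at h1
  have hall : ∀ g, σ.SameCycle 1 g := by
    apply hconn {g | σ.SameCycle 1 g}
    · intro x hx h hh
      exact hcos' x (x * h) (by rwa [inv_mul_cancel_left]) hx
    · intro z hz hzY
      by_cases hp : P z
      · show σ.SameCycle 1 (μ z)
        rw [← (hσ z).1 hp, Equiv.Perm.sameCycle_apply_right]
        exact hzY
      · have h1 : P (μ z) := by
          by_contra h
          exact hp ((hPμ z hz).2 h)
        have h2 := (hσ _).1 h1
        rw [hμ z hz] at h2
        show σ.SameCycle 1 (μ z)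
        rw [← Equiv.Perm.sameCycle_apply_right, h2]
        exact hzY
    · exact Equiv.Perm.SameCycle.refl _ _
  refine ⟨σ, fun x => ?_, fun x y => (hall x).symm.trans (hall y)⟩
  by_cases hp : P x
  · exact Or.inl ⟨(hσ x).1 hp, hPS x hp⟩
  · exact Or.inr ((hσ x).2 hp)

end Asm

end Pool.Agent.U122.HX
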