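import Mathlib

/-!
# Cuts in the graph of the cosets of a subgroup

`G` is a finite group, `H` a subgroup and `B` a finite symmetric set. For a proper nonempty union `X`
of left cosets of `H` the number of pairs `(x, b)` with `x ∈ X`, `b ∈ B`, `x b ∉ X` is at least
`|K| |B ∖ K|` for some proper subgroup `K ≥ H`.
-/

set_option autoImplicit false
set_option linter.unusedSectionVars false

namespace Pool.Agent.U122.HX

open Finset Pointwise

section

variable {G : Type*} [Group G] [Fintype G] [DecidableEq G]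

/-- the number of pairs `(x, b)` with `x ∈ X`, `b ∈ B`, `x b ∉ X` -/
def dd (B X : Finset G) : ℕ := ∑ x : G, ∑ b ∈ B, if x ∈ X ∧ x * b ∉ X then 1 else 0

lemma dd_submod (B X Y : Finset G) : dd B (X ∩ Y) + dd B (X ∪ Y) ≤ dd B X + dd B Y := by
  unfold dd
  rw [← Finset.sum_add_distrib, ← Finset.sum_add_distrib]
  refine Finset.sum_le_sum fun x _ => ?_
  rw [← Finset.sum_add_distrib, ← Finset.sum_add_distrib]
  refine Finset.sum_le_sum fun b _ => ?_
  simp only [Finset.mem_inter, Finset.mem_union]
  by_cases h1 : x ∈ X <;> by_cases h2 : x ∈ Y <;> by_cases h3 : x * b ∈ X <;>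
    by_cases h4 : x * b ∈ Y <;> simp [h1, h2, h3, h4]

lemma dd_smul (B X : Finset G) (g : G) : dd B (g • X) = dd B X := by
  unfold dd
  rw [← Equiv.sum_comp (Equiv.mulLeft g)]
  refine Finset.sum_congr rfl fun x _ => Finset.sum_congr rfl fun b _ => ?_
  have h1 : ∀ y : G, g * y ∈ g • X ↔ y ∈ X := fun y => by
    rw [← smul_eq_mul, Finset.smul_mem_smul_finset_iff]
  simp only [Equiv.coe_mulLeft, mul_assoc, h1]

lemma dd_compl (B X : Finset G) (hB : ∀ b ∈ B, b⁻¹ ∈ B) : dd B Xᶜ = dd B X := by
  unfold dd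
  rw [Finset.sum_comm, Finset.sum_comm (f := fun x b => if x ∈ X ∧ x * b ∉ X then 1 else 0)]
  refine Finset.sum_nbij' (fun b => b⁻¹) (fun b => b⁻¹) hB hB (fun b _ => inv_inv b)
    (fun b _ => inv_inv b) fun b hb => ?_
  rw [← Equiv.sum_comp (Equiv.mulRight b⁻¹)]
  refine Finset.sum_congr rfl fun x _ => ?_
  simp only [Equiv.coe_mulRight, Finset.mem_compl, inv_mul_cancel_right, not_not]
  congr 1
  rw [and_comm]

/-- `X` is a union of left cosets of `H` -/
def Inv (H : Subgroup G) (X : Finset G) : Prop := ∀ x ∈ X, ∀ h ∈ H, x * h ∈ X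

lemma dd_subgroup (B : Finset G) (K : Subgroup G) [DecidablePred (· ∈ K)] (X : Finset G)
    (hX : ∀ x, x ∈ X ↔ x ∈ K) :
    dd B X = Nat.card K * (B.filter fun b => b ∉ K).card := by
  unfold dd
  have h1 : ∀ x : G, (∑ b ∈ B, if x ∈ X ∧ x * b ∉ X then 1 else 0) =
      if x ∈ X then (B.filter fun b => b ∉ K).card else 0 := by
    intro x
    by_cases hx : x ∈ X
    · rw [if_pos hx, Finset.card_filter]
      refine Finset.sum_congr rfl fun b _ => ?_
      have h2 : x * b ∈ X ↔ b ∈ K := by
        rw [hX, Subgroup.mul_mem_cancel_left _ ((hX x).1 hx)]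
      simp [hx, h2]
    · simp [hx]
  rw [Finset.sum_congr rfl fun x _ => h1 x, ← Finset.sum_filter, Finset.sum_const, smul_eq_mul]
  congr 1
  rw [Nat.card_eq_fintype_card, Fintype.card_subtype]
  congr 1
  ext x
  simp [hX]

theorem exists_subgroup (H : Subgroup G) (B : Finset G) (hB : ∀ b ∈ B, b⁻¹ ∈ B) (X : Finset G)
    (hX : X.Nonempty) (hXu : X ≠ univ) (hinv : Inv H X) :
    ∃ (K : Subgroup G) (_ : DecidablePred (· ∈ K)), H ≤ K ∧ K ≠ ⊤ ∧
      Nat.card K * (B.filter fun b => b ∉ K).card ≤ dd B X := by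
  classical
  set P : Finset G → Prop := fun Y => Y.Nonempty ∧ Y ≠ univ ∧ Inv H Y with hP
  obtain ⟨Y, hY, hmin⟩ := Finset.exists_min_image (univ.filter P)
    (fun Y => dd B Y * (Fintype.card G + 1) + Y.card) ⟨X, by simp [hP, hX, hXu, hinv]⟩
  rw [Finset.mem_filter] at hY
  replace hmin : ∀ Z, P Z → dd B Y * (Fintype.card G + 1) + Y.card ≤
      dd B Z * (Fintype.card G + 1) + Z.card := fun Z hZ => hmin Z (by simpa using hZ)
  obtain ⟨-, hYne, hYu, hYi⟩ := hY
  have hle : ∀ Z : Finset G, Z.card ≤ Fintype.card G := fun Z => Finset.card_le_univ Z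
  have hdd : ∀ Z, P Z → dd B Y ≤ dd B Z := by
    intro Z hZ
    by_contra hlt
    push Not at hlt
    have h1 := hmin Z hZ
    have h2 := hle Z
    have h3 : (dd B Z + 1) * (Fintype.card G + 1) ≤ dd B Y * (Fintype.card G + 1) :=
      Nat.mul_le_mul_right _ hlt
    rw [add_mul, one_mul] at h3
    omega
  have hcd : ∀ Z, P Z → dd B Z ≤ dd B Y → Y.card ≤ Z.card := by
    intro Z hZ h
    have h1 := hmin Z hZ
    have h3 : dd B Z * (Fintype.card G + 1) ≤ dd B Y * (Fintype.card G + 1) :=
      Nat.mul_le_mul_right _ h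
    omega
  have hYlt : Y.card < Fintype.card G := by
    refine lt_of_le_of_ne (hle Y) fun h => hYu ?_
    exact Finset.card_eq_iff_eq_univ _ |>.1 h
  -- half
  have hhalf : 2 * Y.card ≤ Fintype.card G := by
    have h1 : P Yᶜ := by
      refine ⟨?_, ?_, ?_⟩
      · rw [← Finset.card_pos, Finset.card_compl]
        omega
      · intro h
        rw [Finset.compl_eq_univ_iff] at h
        exact hYne.ne_empty h
      · intro x hx h hh
        rw [Finset.mem_compl] at hx ⊢
        intro hxh
        apply hx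
        have := hYi _ hxh h⁻¹ (H.inv_mem hh)
        rwa [mul_inv_cancel_right] at this
    have h2 := hcd _ h1 (dd_compl B Y hB).le
    rw [Finset.card_compl] at h2
    omega
  -- translates
  have htr : ∀ g : G, (Y ∩ g • Y).Nonempty → g • Y = Y := by
    intro g hg
    have hgi : Inv H (g • Y) := by
      intro x hx h hh
      rw [Finset.mem_smul_finset] at hx ⊢
      obtain ⟨y, hy, rfl⟩ := hx
      exact ⟨y * h, hYi y hy h hh, by simp [mul_assoc]⟩
    have h1 : P (Y ∩ g • Y) := by
      refine ⟨hg, ?_, ?_⟩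
      · intro h
        apply hYu
        rw [Finset.eq_univ_iff_forall] at h ⊢
        exact fun x => (Finset.mem_inter.1 (h x)).1
      · intro x hx h hh
        rw [Finset.mem_inter] at hx ⊢
        exact ⟨hYi x hx.1 h hh, hgi x hx.2 h hh⟩
    have hun := Finset.card_union_add_card_inter Y (g • Y)
    rw [Finset.card_smul_finset] at hun
    have hpos := hg.card_pos
    have h2 : P (Y ∪ g • Y) := by
      refine ⟨hYne.mono Finset.subset_union_left, ?_, ?_⟩
      · intro h
        rw [h, Finset.card_univ] at hun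
        omega
      · intro x hx h hh
        rw [Finset.mem_union] at hx ⊢
        rcases hx with hx | hx
        · exact Or.inl (hYi x hx h hh)
        · exact Or.inr (hgi x hx h hh)
    have h3 := dd_submod B Y (g • Y)
    rw [dd_smul] at h3
    have h4 := hdd _ h2
    have h5 := hcd _ h1 (by omega)
    have h6 : Y ∩ g • Y = Y := Finset.eq_of_subset_of_card_le Finset.inter_subset_left h5
    have h7 : Y ⊆ g • Y := Finset.inter_eq_left.1 h6
    exact (Finset.eq_of_subset_of_card_le h7 (by rw [Finset.card_smul_finset])).symm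
  obtain ⟨y, hy⟩ := hYne
  set Z : Finset G := y⁻¹ • Y with hZ
  have h1Z : (1 : G) ∈ Z := by
    rw [hZ, Finset.mem_smul_finset]
    exact ⟨y, hy, by simp⟩
  have htrZ : ∀ g : G, (Z ∩ g • Z).Nonempty → g • Z = Z := by
    intro g hg
    obtain ⟨x, hx⟩ := hg
    rw [Finset.mem_inter, hZ, smul_smul] at hx
    have h1 : (Y ∩ (y * (g * y⁻¹)) • Y).Nonempty := by
      refine ⟨y * x, Finset.mem_inter.2 ⟨?_, ?_⟩⟩
      · have := hx.1
        rw [Finset.mem_inv_smul_finset_iff] at this
        simpa using this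
      · have h2 := Finset.smul_mem_smul_finset (a := y) hx.2
        rw [smul_smul] at h2
        simpa using h2
    have h2 := htr _ h1
    rw [hZ, smul_smul]
    have h3 : y⁻¹ • ((y * (g * y⁻¹)) • Y) = y⁻¹ • Y := by rw [h2]
    rwa [smul_smul, inv_mul_cancel_left] at h3
  have hmem : ∀ x, x ∈ Z ↔ x ∈ MulAction.stabilizer G Z := by
    intro x
    rw [MulAction.mem_stabilizer_iff]
    constructor
    · intro hx
      refine htrZ x ⟨x, Finset.mem_inter.2 ⟨hx, ?_⟩⟩
      rw [Finset.mem_smul_finset]
      exact ⟨1, h1Z, by simp⟩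
    · intro hx
      rw [← hx, Finset.mem_smul_finset]
      exact ⟨1, h1Z, by simp⟩
  have hZi : Inv H Z := by
    intro x hx h hh
    rw [hZ, Finset.mem_smul_finset] at hx ⊢
    obtain ⟨z, hz, rfl⟩ := hx
    exact ⟨z * h, hYi z hz h hh, by simp [mul_assoc]⟩
  refine ⟨MulAction.stabilizer G Z, Classical.decPred _, ?_, ?_, ?_⟩
  · intro h hh
    rw [← hmem]
    have := hZi 1 h1Z h hh
    rwa [one_mul] at this
  · intro htop
    have h1 : Z = univ := by
      rw [Finset.eq_univ_iff_forall]
      intro x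
      rw [hmem, htop]
      exact Subgroup.mem_top x
    have h2 : Z.card = Y.card := by rw [hZ, Finset.card_smul_finset]
    rw [h1, Finset.card_univ] at h2
    omega
  · have h1 := @dd_subgroup G _ _ _ B (MulAction.stabilizer G Z) (Classical.decPred _) Z hmem
    rw [← h1, hZ, dd_smul]
    exact hdd X ⟨hX, hXu, hinv⟩

/-! ### minimal sets of generators modulo `H` -/

/-- `B` is symmetric and generates `G` together with `H` -/
def Gen (H : Subgroup G) (B : Finset G) : Prop :=
  (∀ b ∈ B, b⁻¹ ∈ B) ∧ Subgroup.closure ((H : Set G) ∪ B) = ⊤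

lemma two_pow_card (H : Subgroup G) (B : Finset G) (hB : Gen H B)
    (hmin : ∀ B' ⊆ B, Gen H B' → B' = B) :
    ∀ (n : ℕ) (C : Finset G), C.card ≤ n → C ⊆ B → (∀ b ∈ C, b⁻¹ ∈ C) →
      ∃ s : ℕ, C.card ≤ 2 * s ∧
        2 ^ s * Nat.card H ≤ Nat.card (Subgroup.closure ((H : Set G) ∪ C) : Subgroup G) := by
  intro n
  induction n with
  | zero =>
    intro C hC hCB hCi
    refine ⟨0, by omega, ?_⟩
    rw [pow_zero, one_mul]
    apply Subgroup.card_le_of_le
    intro x hx
    exact Subgroup.subset_closure (Or.inl hx)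
  | succ n ih =>
    intro C hC hCB hCi
    by_cases hne : C.Nonempty
    swap
    · rw [Finset.not_nonempty_iff_eq_empty] at hne
      refine ⟨0, by simp [hne], ?_⟩
      rw [pow_zero, one_mul]
      apply Subgroup.card_le_of_le
      intro x hx
      exact Subgroup.subset_closure (Or.inl hx)
    obtain ⟨b, hb⟩ := hne
    set D : Finset G := (C.erase b).erase b⁻¹ with hD
    have hDC : D ⊆ C := (Finset.erase_subset _ _).trans (Finset.erase_subset _ _)
    have hmemD : ∀ x, x ∈ D ↔ x ∈ C ∧ x ≠ b ∧ x ≠ b⁻¹ := by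
      intro x
      rw [hD, Finset.mem_erase, Finset.mem_erase]
      tauto
    have hDi : ∀ x ∈ D, x⁻¹ ∈ D := by
      intro x hx
      rw [hmemD] at hx ⊢
      refine ⟨hCi x hx.1, fun h => hx.2.2 ?_, fun h => hx.2.1 ?_⟩
      · rw [← h, inv_inv]
      · exact inv_injective h
    have hDcard : C.card ≤ D.card + 2 := by
      have h1 := Finset.pred_card_le_card_erase (s := C) (a := b)
      have h2 := Finset.pred_card_le_card_erase (s := C.erase b) (a := b⁻¹)
      rw [← hD] at h2
      omega
    have hDlt : D.card < C.card := by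
      apply Finset.card_lt_card
      refine ⟨hDC, fun h => ?_⟩
      have := h hb
      rw [hmemD] at this
      exact this.2.1 rfl
    obtain ⟨s, hs1, hs2⟩ := ih D (by omega) (hDC.trans hCB) hDi
    refine ⟨s + 1, by omega, ?_⟩
    -- the subgroup becomes larger
    have hle : Subgroup.closure ((H : Set G) ∪ D) ≤ Subgroup.closure ((H : Set G) ∪ C) := by
      apply Subgroup.closure_mono
      exact Set.union_subset_union_right _ (by exact_mod_cast hDC)
    have hbD : b ∉ Subgroup.closure ((H : Set G) ∪ D) := by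
      intro hbD
      set B' : Finset G := (B.erase b).erase b⁻¹ with hB'
      have hmemB' : ∀ x, x ∈ B' ↔ x ∈ B ∧ x ≠ b ∧ x ≠ b⁻¹ := by
        intro x
        rw [hB', Finset.mem_erase, Finset.mem_erase]
        tauto
      have hDB' : D ⊆ B' := by
        intro x hx
        rw [hmemD] at hx
        rw [hmemB']
        exact ⟨hCB hx.1, hx.2⟩
      have hbB' : b ∈ Subgroup.closure ((H : Set G) ∪ B') := by
        refine Subgroup.closure_mono (Set.union_subset_union_right _ ?_) hbD
        exact_mod_cast hDB'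
      have hgen : Gen H B' := by
        refine ⟨?_, ?_⟩
        · intro x hx
          rw [hmemB'] at hx ⊢
          refine ⟨hB.1 x hx.1, fun h => hx.2.2 ?_, fun h => hx.2.1 ?_⟩
          · rw [← h, inv_inv]
          · exact inv_injective h
        · rw [eq_top_iff, ← hB.2, Subgroup.closure_le]
          rintro x (hx | hx)
          · exact Subgroup.subset_closure (Or.inl hx)
          · by_cases h1 : x = b
            · rw [h1]
              exact hbB'
            · by_cases h2 : x = b⁻¹
              · rw [h2]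
                exact Subgroup.inv_mem _ hbB'
              · refine Subgroup.subset_closure (Or.inr ?_)
                rw [Finset.mem_coe, hmemB']
                exact ⟨hx, h1, h2⟩
      have h3 := hmin B' ((Finset.erase_subset _ _).trans (Finset.erase_subset _ _)) hgen
      have h4 : b ∈ B' := by
        rw [h3]
        exact hCB hb
      rw [hmemB'] at h4
      exact h4.2.1 rfl
    have hlt : Subgroup.closure ((H : Set G) ∪ D) < Subgroup.closure ((H : Set G) ∪ C) := by
      refine lt_of_le_of_ne hle fun h => hbD ?_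
      rw [h]
      exact Subgroup.subset_closure (Or.inr hb)
    have h5 := Subgroup.card_mul_index
      ((Subgroup.closure ((H : Set G) ∪ D)).subgroupOf (Subgroup.closure ((H : Set G) ∪ C)))
    have h6 : Nat.card ((Subgroup.closure ((H : Set G) ∪ D)).subgroupOf
        (Subgroup.closure ((H : Set G) ∪ C))) = Nat.card (Subgroup.closure ((H : Set G) ∪ D)) :=
      Nat.card_congr (Subgroup.subgroupOfEquivOfLe hle).toEquiv
    have h7 : 2 ≤ ((Subgroup.closure ((H : Set G) ∪ D)).subgroupOf
        (Subgroup.closure ((H : Set G) ∪ C))).index := by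
      have h8 : ((Subgroup.closure ((H : Set G) ∪ D)).subgroupOf
        (Subgroup.closure ((H : Set G) ∪ C))).index ≠ 0 := Subgroup.index_ne_zero_of_finite
      have h9 : ((Subgroup.closure ((H : Set G) ∪ D)).subgroupOf
        (Subgroup.closure ((H : Set G) ∪ C))).index ≠ 1 := by
        intro h10
        rw [Subgroup.index_eq_one, Subgroup.subgroupOf_eq_top] at h10
        exact absurd hlt (not_lt_of_ge h10)
      omega
    rw [h6] at h5
    rw [← h5, pow_succ]
    calc 2 ^ s * 2 * Nat.card H = (2 ^ s * Nat.card H) * 2 := by ring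
      _ ≤ _ := Nat.mul_le_mul hs2 h7

/-- every cut has at least `(2 / 3) |H| |B|` edges -/
theorem cut_bound (H : Subgroup G) (B : Finset G) (hB : Gen H B)
    (hmin : ∀ B' ⊆ B, Gen H B' → B' = B) (X : Finset G) (hX : X.Nonempty) (hXu : X ≠ univ)
    (hinv : Inv H X) : 2 * (Nat.card H * B.card) ≤ 3 * dd B X := by
  classical
  obtain ⟨K, _, hHK, hK, hle⟩ := exists_subgroup H B hB.1 X hX hXu hinv
  obtain ⟨s, hs1, hs2⟩ := two_pow_card H B hB hmin _ (B.filter fun b => b ∈ K) le_rfl
    (Finset.filter_subset _ _) (by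
      intro b hb
      rw [Finset.mem_filter] at hb ⊢
      exact ⟨hB.1 b hb.1, K.inv_mem hb.2⟩)
  have hs3 : 2 ^ s * Nat.card H ≤ Nat.card K := by
    refine hs2.trans (Subgroup.card_le_of_le ?_)
    rw [Subgroup.closure_le]
    rintro x (hx | hx)
    · exact hHK hx
    · rw [Finset.mem_coe, Finset.mem_filter] at hx
      exact hx.2
  have hj : 1 ≤ (B.filter fun b => b ∉ K).card := by
    rw [Nat.one_le_iff_ne_zero]
    intro h0
    rw [Finset.card_eq_zero, Finset.filter_eq_empty_iff] at h0
    apply hK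
    rw [eq_top_iff, ← hB.2, Subgroup.closure_le]
    rintro x (hx | hx)
    · exact hHK hx
    · exact not_not.1 (h0 hx)
  have hcard := Finset.card_filter_add_card_filter_not (s := B) (fun b => b ∈ K)
  set t := (B.filter fun b => b ∈ K).card with ht
  set j := (B.filter fun b => b ∉ K).card with hjdef
  have h2 : 2 + 4 * s ≤ 3 * 2 ^ s := by
    have : ∀ s : ℕ, 2 + 4 * s ≤ 3 * 2 ^ s := by
      intro s
      induction s with
      | zero => norm_num
      | succ s ih =>
        rw [pow_succ]
        rcases Nat.eq_zero_or_pos s with h | h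
        · subst h
          norm_num
        · omega
    exact this s
  have h3 : 2 * (j + t) ≤ 3 * 2 ^ s * j := by
    calc 2 * (j + t) ≤ (2 + 4 * s) * j := by nlinarith
      _ ≤ 3 * 2 ^ s * j := Nat.mul_le_mul_right _ h2
  have h4 : B.card = j + t := by omega
  calc 2 * (Nat.card H * B.card) = Nat.card H * (2 * (j + t)) := by rw [h4]; ring
    _ ≤ Nat.card H * (3 * 2 ^ s * j) := Nat.mul_le_mul_left _ h3
    _ = 3 * ((2 ^ s * Nat.card H) * j) := by ring
    _ ≤ 3 * (Nat.card K * j) := Nat.mul_le_mul_left _ (Nat.mul_le_mul_right _ hs3)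
    _ ≤ 3 * dd B X := Nat.mul_le_mul_left _ hle

end

end Pool.Agent.U122.HX
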