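import Pool.Agent.U122.HX.Lin
import Pool.Agent.U122.HX.Cut
import Pool.Agent.U122.HX.Asm

/-!
# Two spanning trees of the coset graph which form a matching of the Cayley graph
-/

set_option autoImplicit false
set_option linter.unusedSectionVars false

namespace Pool.Agent.U122.HX

open Finset Classical

section

variable {G : Type*} [Group G] [Fintype G] (H : Subgroup G) (B : Finset G)

/-- arcs `x → x b` with a label -/
abbrev Arc (B : Finset G) : Type _ := (G × B) × Bool

/-- the two ends of an arc -/
noncomputable def slot (e : Arc B) : Finset G := {e.1.1, e.1.1 * (e.1.2 : G)}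

/-- the unit vector of the coset of `x` -/
noncomputable def dl (x : G) : G ⧸ H → ZMod 2 := Pi.single (x : G ⧸ H) 1

/-- the boundary of an arc -/
noncomputable def bd (e : Arc B) : G ⧸ H → ZMod 2 := dl H e.1.1 + dl H (e.1.1 * (e.1.2 : G))

/-- the boundary of an arc, in the component of its label -/
noncomputable def vec (e : Arc B) : Bool → G ⧸ H → ZMod 2 := Pi.single e.2 (bd H B e)

abbrev WW : Type _ := Bool → G ⧸ H → ZMod 2

lemma add_self {V : Type*} [AddCommGroup V] [Module (ZMod 2) V] (w : V) : w + w = 0 := by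
  have h : (2 : ZMod 2) • w = 0 := by
    have : (2 : ZMod 2) = 0 := rfl
    rw [this, zero_smul]
  rwa [two_smul] at h

variable {H}

/-- two cosets are equivalent if the sum of their unit vectors is in `U`, at the label `l` -/
def rel (U : Submodule (ZMod 2) (WW H)) (l : Bool) : Setoid (G ⧸ H) where
  r q q' := (Pi.single l (Pi.single q 1 + Pi.single q' 1) : WW H) ∈ U
  iseqv := by
    refine ⟨fun q => ?_, fun {q q'} h => ?_, fun {q q' q''} h1 h2 => ?_⟩
    · rw [add_self, Pi.single_zero]
      exact U.zero_mem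
    · rwa [add_comm]
    · have h3 := U.add_mem h1 h2
      rw [← Pi.single_add] at h3
      have h4 : (Pi.single q 1 + Pi.single q' 1 : G ⧸ H → ZMod 2) + (Pi.single q' 1 + Pi.single q'' 1) =
          Pi.single q 1 + Pi.single q'' 1 := by
        have h5 := add_self (Pi.single q' 1 : G ⧸ H → ZMod 2)
        calc (Pi.single q 1 + Pi.single q' 1 : G ⧸ H → ZMod 2) + (Pi.single q' 1 + Pi.single q'' 1)
            = Pi.single q 1 + (Pi.single q' 1 + Pi.single q' 1) + Pi.single q'' 1 := by abel
          _ = _ := by rw [h5, add_zero]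
      rwa [h4] at h3

lemma rel_iff {U : Submodule (ZMod 2) (WW H)} {l : Bool} {q q' : G ⧸ H} :
    (Quotient.mk (rel U l) q = Quotient.mk (rel U l) q') ↔
      (Pi.single l (Pi.single q 1 + Pi.single q' 1) : WW H) ∈ U := by
  rw [Quotient.eq]
  exact Iff.rfl

/-- the number of classes -/
noncomputable def nc (U : Submodule (ZMod 2) (WW H)) (l : Bool) : ℕ :=
  Fintype.card (Quotient (rel U l))

lemma finrank_WW : Module.finrank (ZMod 2) (WW H) = 2 * Fintype.card (G ⧸ H) := by
  rw [Module.finrank_pi_fintype]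
  simp [Module.finrank_fintype_fun_eq_card]

lemma count_le (U : Submodule (ZMod 2) (WW H)) :
    2 * Fintype.card (G ⧸ H) ≤ Module.finrank (ZMod 2) U + (nc U false + nc U true) := by
  let gen : (Σ l : Bool, Quotient (rel U l)) → WW H := fun p =>
    Pi.single p.1 (Pi.single p.2.out 1)
  have htop : (⊤ : Submodule (ZMod 2) (WW H)) ≤ U ⊔ Submodule.span (ZMod 2) (Set.range gen) := by
    intro w _
    have h1 : ∀ (l : Bool) (q : G ⧸ H), (Pi.single l (Pi.single q 1) : WW H) ∈
        U ⊔ Submodule.span (ZMod 2) (Set.range gen) := by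
      intro l q
      have h2 : (Pi.single l (Pi.single q 1) : WW H) =
          Pi.single l (Pi.single q 1 + Pi.single (Quotient.mk (rel U l) q).out 1) +
          gen ⟨l, Quotient.mk (rel U l) q⟩ := by
        simp only [gen]
        rw [← Pi.single_add, add_assoc, add_self, add_zero]
      rw [h2]
      refine Submodule.add_mem_sup ?_ (Submodule.subset_span ⟨_, rfl⟩)
      rw [← rel_iff, Quotient.out_eq]
    have h2 : w = ∑ l : Bool, ∑ q : G ⧸ H, w l q • (Pi.single l (Pi.single q 1) : WW H) := by
      funext l q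
      simp only [Finset.sum_apply, Pi.smul_apply, smul_eq_mul]
      rw [Finset.sum_eq_single l, Finset.sum_eq_single q]
      · simp
      · intro q' _ hq'
        rw [Pi.single_eq_same, Pi.single_eq_of_ne hq'.symm, mul_zero]
      · intro h
        exact absurd (Finset.mem_univ _) h
      · intro l' _ hl'
        apply Finset.sum_eq_zero
        intro q' _
        rw [Pi.single_eq_of_ne hl'.symm]
        simp
      · intro h
        exact absurd (Finset.mem_univ _) h
    rw [h2]
    exact Submodule.sum_mem _ fun l _ => Submodule.sum_mem _ fun q _ =>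
      Submodule.smul_mem _ _ (h1 l q)
  have h3 : Module.finrank (ZMod 2) (U ⊔ Submodule.span (ZMod 2) (Set.range gen) :
      Submodule (ZMod 2) (WW H)) = 2 * Fintype.card (G ⧸ H) := by
    rw [top_le_iff.1 htop, finrank_top, finrank_WW]
  have h4 := Submodule.finrank_add_le_finrank_add_finrank U
    (Submodule.span (ZMod 2) (Set.range gen))
  have h5 : Module.finrank (ZMod 2) (Submodule.span (ZMod 2) (Set.range gen)) ≤
      nc U false + nc U true := by
    have h6 := finrank_range_le_card (R := ZMod 2) gen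
    rw [Fintype.card_sigma, Fintype.sum_bool] at h6
    unfold nc
    rw [Set.finrank] at h6
    omega
  omega

lemma nc_pos (U : Submodule (ZMod 2) (WW H)) (l : Bool) : 1 ≤ nc U l := by
  have : Nonempty (Quotient (rel U l)) := ⟨Quotient.mk _ ((1 : G) : G ⧸ H)⟩
  exact Fintype.card_pos

lemma vec_mem_iff (U : Submodule (ZMod 2) (WW H)) (x : G) (b : B) (l : Bool) :
    vec H B ((x, b), l) ∈ U ↔ Quotient.mk (rel U l) (x : G ⧸ H) =
      Quotient.mk (rel U l) ((x * b : G) : G ⧸ H) := by
  rw [rel_iff]
  rfl

/-- the map to the sums over the classes -/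
noncomputable def Phi (U : Submodule (ZMod 2) (WW H)) :
    WW H →ₗ[ZMod 2] ((Σ l : Bool, Quotient (rel U l)) → ZMod 2) where
  toFun w p := ∑ q : G ⧸ H, if Quotient.mk (rel U p.1) q = p.2 then w p.1 q else 0
  map_add' w w' := by
    funext p
    show _ = (∑ q : G ⧸ H, if Quotient.mk (rel U p.1) q = p.2 then w p.1 q else 0) +
      ∑ q : G ⧸ H, if Quotient.mk (rel U p.1) q = p.2 then w' p.1 q else 0
    rw [← Finset.sum_add_distrib]
    refine Finset.sum_congr rfl fun q _ => ?_
    split_ifs <;> simp
  map_smul' c w := by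
    funext p
    show _ = c * (∑ q : G ⧸ H, if Quotient.mk (rel U p.1) q = p.2 then w p.1 q else 0)
    rw [Finset.mul_sum]
    refine Finset.sum_congr rfl fun q _ => ?_
    split_ifs <;> simp

lemma Phi_surj (U : Submodule (ZMod 2) (WW H)) : Function.Surjective (Phi U) := by
  intro t
  refine ⟨fun l q => if q = (Quotient.mk (rel U l) q).out then t ⟨l, Quotient.mk (rel U l) q⟩ else 0,
    ?_⟩
  funext p
  obtain ⟨l, c⟩ := p
  show ∑ q : G ⧸ H, (if Quotient.mk (rel U l) q = c then
    (if q = (Quotient.mk (rel U l) q).out then t ⟨l, Quotient.mk (rel U l) q⟩ else 0) else 0) = _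
  rw [Finset.sum_eq_single c.out]
  · rw [Quotient.out_eq, if_pos rfl, if_pos rfl]
  · intro q _ hq
    by_cases h : Quotient.mk (rel U l) q = c
    · rw [if_pos h, h, if_neg hq]
    · rw [if_neg h]
  · intro h
    exact absurd (Finset.mem_univ _) h

lemma count_ge (F : Finset (Arc B)) (U : Submodule (ZMod 2) (WW H))
    (hU : U = sp (ZMod 2) (vec H B) F) :
    Module.finrank (ZMod 2) U + (nc U false + nc U true) ≤ 2 * Fintype.card (G ⧸ H) := by
  have h1 : U ≤ LinearMap.ker (Phi U) := by
    have h0 : ∀ e ∈ F, vec H B e ∈ LinearMap.ker (Phi U) → True := fun _ _ _ => trivial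
    suffices h : ∀ e ∈ F, vec H B e ∈ LinearMap.ker (Phi U) by
      intro w hw
      have hw' : w ∈ sp (ZMod 2) (vec H B) F := by rwa [← hU]
      refine (Submodule.span_le (p := LinearMap.ker (Phi U))).2 ?_ hw'
      rintro _ ⟨e, he, rfl⟩
      exact h e (by exact_mod_cast he)
    intro e he
    obtain ⟨⟨x, b⟩, l⟩ := e
    have h2 := (vec_mem_iff B U x b l).1 (by rw [hU]; exact mem_sp he)
    rw [LinearMap.mem_ker]
    funext p
    obtain ⟨l', c⟩ := p
    show ∑ q : G ⧸ H, (if Quotient.mk (rel U l') q = c then vec H B ((x, b), l) l' q else 0) = 0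
    by_cases hl : l' = l
    · subst hl
      have h3 : ∀ q : G ⧸ H, (if Quotient.mk (rel U l') q = c then
          vec H B ((x, b), l') l' q else 0) =
          (if q = (x : G ⧸ H) then (if Quotient.mk (rel U l') (x : G ⧸ H) = c then 1 else 0) else 0) +
          (if q = ((x * b : G) : G ⧸ H) then
            (if Quotient.mk (rel U l') ((x * b : G) : G ⧸ H) = c then 1 else 0) else 0) := by
        intro q
        rw [vec, Pi.single_eq_same, bd, dl, dl, Pi.add_apply, Pi.single_apply, Pi.single_apply]
        by_cases h4 : q = (x : G ⧸ H) <;> by_cases h5 : q = ((x * b : G) : G ⧸ H)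
        · subst h4
          simp only [if_true, ← h5]
          split_ifs <;> simp
        · subst h4
          simp only [if_true, h5, if_false, add_zero]
        · subst h5
          simp only [if_true, h4, if_false, zero_add]
        · simp only [h4, h5, if_false, add_zero, ite_self]
      rw [Finset.sum_congr rfl fun q _ => h3 q, Finset.sum_add_distrib, Finset.sum_ite_eq',
        Finset.sum_ite_eq', if_pos (Finset.mem_univ _), if_pos (Finset.mem_univ _), h2, add_self]
    · apply Finset.sum_eq_zero
      intro q _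
      rw [vec, Pi.single_eq_of_ne hl]
      simp
  have h2 : Module.finrank (ZMod 2) (LinearMap.range (Phi U)) +
      Module.finrank (ZMod 2) (LinearMap.ker (Phi U)) = Module.finrank (ZMod 2) (WW H) :=
    LinearMap.finrank_range_add_finrank_ker (Phi U)
  rw [LinearMap.range_eq_top.2 (Phi_surj U), finrank_top, Module.finrank_fintype_fun_eq_card,
    finrank_WW, Fintype.card_sigma, Fintype.sum_bool] at h2
  have h3 : Module.finrank (ZMod 2) U ≤ Module.finrank (ZMod 2) (LinearMap.ker (Phi U)) :=
    Submodule.finrank_mono h1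
  unfold nc
  omega

/-! ### counting -/

/-- the number of arcs between different classes -/
noncomputable def cross (U : Submodule (ZMod 2) (WW H)) (l : Bool) : ℕ :=
  ∑ x : G, ∑ b ∈ B, if Quotient.mk (rel U l) (x : G ⧸ H) ≠
    Quotient.mk (rel U l) ((x * b : G) : G ⧸ H) then 1 else 0

lemma cross_eq (U : Submodule (ZMod 2) (WW H)) (l : Bool) :
    cross B U l = ∑ c : Quotient (rel U l),
      dd B (univ.filter fun x : G => Quotient.mk (rel U l) (x : G ⧸ H) = c) := by
  unfold cross dd
  symm
  rw [Finset.sum_comm]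
  refine Finset.sum_congr rfl fun x _ => ?_
  rw [Finset.sum_comm]
  refine Finset.sum_congr rfl fun b _ => ?_
  rw [Finset.sum_eq_single (Quotient.mk (rel U l) (x : G ⧸ H))]
  · simp [eq_comm]
  · intro c _ hc
    rw [if_neg]
    intro h
    apply hc
    have := h.1
    rw [Finset.mem_filter] at this
    exact this.2.symm
  · intro h
    exact absurd (Finset.mem_univ _) h

lemma cross_ge (hB : Gen H B) (hmin : ∀ B' ⊆ B, Gen H B' → B' = B)
    (U : Submodule (ZMod 2) (WW H)) (l : Bool) (h2 : 2 ≤ nc U l) :
    2 * (Nat.card H * B.card) * nc U l ≤ 3 * cross B U l := by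
  rw [cross_eq, Finset.mul_sum]
  have h1 : 2 * (Nat.card H * B.card) * nc U l =
      ∑ _c : Quotient (rel U l), 2 * (Nat.card H * B.card) := by
    rw [Finset.sum_const, smul_eq_mul, mul_comm, Finset.card_univ]
    rfl
  rw [h1]
  refine Finset.sum_le_sum fun c _ => ?_
  have hc : Quotient.mk (rel U l) c.out = c := Quotient.out_eq c
  apply cut_bound H B hB hmin
  · obtain ⟨x, hx⟩ := QuotientGroup.mk_surjective c.out
    refine ⟨x, ?_⟩
    rw [Finset.mem_filter]
    exact ⟨Finset.mem_univ _, by rw [hx, hc]⟩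
  · intro h
    have h3 : ∀ d : Quotient (rel U l), d = c := by
      intro d
      obtain ⟨x, hx⟩ := QuotientGroup.mk_surjective d.out
      have h4 : x ∈ (univ.filter fun x : G => Quotient.mk (rel U l) (x : G ⧸ H) = c) := by
        rw [h]
        exact Finset.mem_univ _
      rw [Finset.mem_filter, hx, Quotient.out_eq] at h4
      exact h4.2
    have h5 : nc U l ≤ 1 := by
      unfold nc
      rw [Fintype.card_le_one_iff]
      intro a b
      rw [h3 a, h3 b]
    omega
  · intro x hx h hh
    rw [Finset.mem_filter] at hx ⊢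
    refine ⟨Finset.mem_univ _, ?_⟩
    rw [← hx.2]
    congr 1
    rw [eq_comm, QuotientGroup.eq]
    simpa using hh

lemma cross_le (U : Submodule (ZMod 2) (WW H)) (l : Bool) (Z : Finset G)
    (hZ : ∀ e : Arc B, vec H B e ∉ U → ¬ Disjoint (slot B e) Z) :
    cross B U l ≤ 2 * (B.card * Z.card) := by
  have h1 : cross B U l ≤ ∑ x : G, ∑ b ∈ B, ((if x ∈ Z then 1 else 0) + if x * b ∈ Z then 1 else 0) := by
    unfold cross
    refine Finset.sum_le_sum fun x _ => Finset.sum_le_sum fun b hb => ?_
    by_cases h : Quotient.mk (rel U l) (x : G ⧸ H) = Quotient.mk (rel U l) ((x * b : G) : G ⧸ H)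
    · rw [if_neg (not_not.2 h)]
      exact Nat.zero_le _
    · rw [if_pos h]
      have h2 := hZ ((x, ⟨b, hb⟩), l) (by
        rw [vec_mem_iff]
        exact h)
      rw [Finset.not_disjoint_iff] at h2
      obtain ⟨z, hz1, hz2⟩ := h2
      rw [slot, Finset.mem_insert, Finset.mem_singleton] at hz1
      rcases hz1 with rfl | rfl
      · rw [if_pos hz2]
        omega
      · rw [if_pos (c := x * b ∈ Z) hz2]
        omega
  refine h1.trans ?_
  have h2 : (∑ x : G, ∑ b ∈ B, ((if x ∈ Z then 1 else 0) + if x * b ∈ Z then 1 else 0)) =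
      (∑ x : G, ∑ _b ∈ B, (if x ∈ Z then 1 else 0)) + ∑ b ∈ B, ∑ x : G, (if x * b ∈ Z then 1 else 0) := by
    rw [Finset.sum_comm (s := B), ← Finset.sum_add_distrib]
    refine Finset.sum_congr rfl fun x _ => ?_
    rw [← Finset.sum_add_distrib]
  rw [h2]
  have h3 : (∑ x : G, ∑ _b ∈ B, (if x ∈ Z then 1 else 0)) = B.card * Z.card := by
    simp only [Finset.sum_const, smul_eq_mul]
    rw [← Finset.mul_sum]
    simp
  have h4 : ∑ b ∈ B, ∑ x : G, (if x * b ∈ Z then 1 else 0) = B.card * Z.card := by
    have h5 : ∀ b ∈ B, ∑ x : G, (if x * b ∈ Z then 1 else 0) = Z.card := by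
      intro b _
      exact (Equiv.sum_comp (Equiv.mulRight b) (fun x => if x ∈ Z then 1 else 0)).trans (by simp)
    rw [Finset.sum_congr rfl h5, Finset.sum_const, smul_eq_mul]
  rw [h3, h4]
  omega

/-- the condition of Haxell's argument -/
lemma cond (hB : Gen H B) (hmin : ∀ B' ⊆ B, Gen H B' → B' = B) (hBne : B.Nonempty)
    (hk : 18 ≤ Nat.card H) (X : Finset (Arc B)) (Z : Finset G)
    (hX : X.card < 2 * (Fintype.card (G ⧸ H) - 1))
    (hZ : Z.card + 3 ≤ 3 * (2 * (Fintype.card (G ⧸ H) - 1) - X.card)) :
    ∃ e, vec H B e ∉ sp (ZMod 2) (vec H B) X ∧ Disjoint (slot B e) Z := by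
  by_contra hcon
  push Not at hcon
  obtain ⟨U, hU⟩ : ∃ U : Submodule (ZMod 2) (WW H), U = sp (ZMod 2) (vec H B) X := ⟨_, rfl⟩
  rw [← hU] at hcon
  have h1 : Module.finrank (ZMod 2) U ≤ X.card := by
    have h2 := finrank_span_finset_le_card (R := ZMod 2) (X.image (vec H B))
    rw [Set.finrank, Finset.coe_image] at h2
    rw [hU]
    exact h2.trans Finset.card_image_le
  have h2 := count_le U
  have hf := nc_pos U false
  have ht := nc_pos U true
  have hcf := cross_le B U false Z hcon
  have hct := cross_le B U true Z hcon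
  have hb := hBne.card_pos
  set n := Fintype.card (G ⧸ H) with hn
  set β := B.card with hβ
  set k := Nat.card H with hkdef
  set cf := nc U false with hcfdef
  set ct := nc U true with hctdef
  obtain ⟨d, hd⟩ : ∃ d, d + X.card = 2 * (n - 1) := ⟨2 * (n - 1) - X.card, by omega⟩
  have hd1 : 1 ≤ d := by omega
  have hZd : Z.card + 3 ≤ 3 * d := by
    have : 2 * (n - 1) - X.card = d := by omega
    rwa [this] at hZ
  have hcd : d + 2 ≤ cf + ct := by omega
  have hup : 3 * (cross B U false + cross B U true) ≤ 12 * (β * Z.card) := by omega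
  have hup2 : 12 * (β * Z.card) + 36 * β ≤ 36 * (β * d) := by
    have := Nat.mul_le_mul_left β hZd
    nlinarith
  have hlow : 36 * (β * (d + 1)) ≤ 3 * (cross B U false + cross B U true) := by
    have hkβ : 36 * β ≤ 2 * (k * β) := by nlinarith
    have key : ∀ l, 2 ≤ nc U l → 36 * β * nc U l ≤ 3 * cross B U l := fun l hl =>
      (Nat.mul_le_mul_right _ hkβ).trans (cross_ge B hB hmin U l hl)
    by_cases h3 : 2 ≤ cf
    · have h5 := key false h3
      by_cases h4 : 2 ≤ ct
      · have h6 := key true h4
        have h7 : 36 * (β * (d + 1)) ≤ 36 * β * cf + 36 * β * ct := by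
          have : β * (d + 1) ≤ β * (cf + ct) := Nat.mul_le_mul_left _ (by omega)
          nlinarith
        simp only [← hcfdef, ← hctdef] at h5 h6
        omega
      · have h7 : 36 * (β * (d + 1)) ≤ 36 * β * cf := by
          have : β * (d + 1) ≤ β * cf := Nat.mul_le_mul_left _ (by omega)
          nlinarith
        simp only [← hcfdef] at h5
        omega
    · have h6 := key true (by omega)
      have h7 : 36 * (β * (d + 1)) ≤ 36 * β * ct := by
        have : β * (d + 1) ≤ β * ct := Nat.mul_le_mul_left _ (by omega)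
        nlinarith
      simp only [← hctdef] at h6
      omega
  have h8 : β * (d + 1) = β * d + β := by ring
  rw [h8] at hlow
  omega

/-- two spanning trees which form a matching -/
theorem exists_trees (hB : Gen H B) (hmin : ∀ B' ⊆ B, Gen H B' → B' = B) (hBne : B.Nonempty)
    (hBH : ∀ b ∈ B, b ∉ H) (hk : 18 ≤ Nat.card H) :
    ∃ F : Finset (Arc B), (∀ e ∈ F, ∀ f ∈ F, e ≠ f → Disjoint (slot B e) (slot B f)) ∧
      ∀ (l : Bool) (q q' : G ⧸ H), (Pi.single l (Pi.single q 1 + Pi.single q' 1) : WW H) ∈
        sp (ZMod 2) (vec H B) F := by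
  obtain ⟨F, hF1, hF2, hF3⟩ := exists_base (K := ZMod 2) (vec H B) (slot B)
    (2 * (Fintype.card (G ⧸ H) - 1)) (by
      intro e
      rw [slot, Finset.card_pair]
      intro h
      rw [left_eq_mul] at h
      exact hBH _ e.1.2.2 (by rw [h]; exact H.one_mem))
    (fun X Z _ hX hZ => cond B hB hmin hBne hk X Z hX hZ)
  refine ⟨F, hF2, fun l q q' => ?_⟩
  obtain ⟨U, hU⟩ : ∃ U : Submodule (ZMod 2) (WW H), U = sp (ZMod 2) (vec H B) F := ⟨_, rfl⟩
  have h1 := count_ge (H := H) B F U hU
  rw [← hU]
  have h2 : Module.finrank (ZMod 2) U = F.card := by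
    have h3 := finrank_span_eq_card hF1
    rw [← Set.image_eq_range] at h3
    rw [hU]
    refine h3.trans ?_
    simp
  have hf := nc_pos U false
  have ht := nc_pos U true
  have hn : 1 ≤ Fintype.card (G ⧸ H) := Fintype.card_pos
  have h4 : nc U l ≤ 1 := by
    cases l <;> omega
  unfold nc at h4
  rw [Fintype.card_le_one_iff] at h4
  rw [← rel_iff]
  exact h4 _ _

end

end Pool.Agent.U122.HX
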