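import Mathlib

/-!
# Bases of a vector space whose members have pairwise disjoint slots

Every index `e` has a vector `v e` and a set `slot e` of two slots. If for every independent set `X`
of indices of size `|X| < r` and every set of at most `3 (r - |X| - 1)` slots there is an index whose
vector is not in the span of `X` and whose slots are not in the set, then there is an independent set
of at least `r` indices whose slots are pairwise disjoint. The proof follows Haxell's proof of the
existence of independent transversals.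
-/

set_option autoImplicit false
set_option linter.unusedSectionVars false

namespace Pool.Agent.U122.HX

open Finset

section

variable {K ι S W : Type*} [Field K] [AddCommGroup W] [Module K W] [DecidableEq ι] [DecidableEq S]

variable (K) in
/-- span of the vectors of a set of indices -/
abbrev sp (v : ι → W) (X : Finset ι) : Submodule K W := Submodule.span K (v '' (X : Set ι))

lemma sp_mono {v : ι → W} {X Y : Finset ι} (h : X ⊆ Y) : sp K v X ≤ sp K v Y :=
  Submodule.span_mono (Set.image_mono (by exact_mod_cast h))

lemma mem_sp {v : ι → W} {X : Finset ι} {e : ι} (h : e ∈ X) : v e ∈ sp K v X :=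
  Submodule.subset_span ⟨e, by exact_mod_cast h, rfl⟩

lemma notMem_erase {v : ι → W} {X : Finset ι} (hX : LinearIndepOn K v (X : Set ι)) {w : ι}
    (hw : w ∈ X) : v w ∉ sp K v (X.erase w) := by
  have h := hX.notMem_span (i := w) (by exact_mod_cast hw)
  rwa [← Finset.coe_erase] at h

lemma exists_w {v : ι → W} {X T : Finset ι} (hX : LinearIndepOn K v (X : Set ι)) {x : W}
    (hx : x ∈ sp K v X) (hT : x ∉ sp K v (X \ T)) : ∃ w ∈ T, w ∈ X ∧ x ∉ sp K v (X.erase w) := by
  obtain ⟨c, rfl⟩ := (Submodule.mem_span_image_finset_iff_exists_fun' K).1 hx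
  by_contra hcon
  push Not at hcon
  have hc : ∀ w ∈ X, w ∈ T → c w = 0 := by
    intro w hw hwT
    by_contra h0
    have h1 := hcon w hwT hw
    rw [← Finset.add_sum_erase X (fun i => c i • v i) hw] at h1
    have h2 : ∑ i ∈ X.erase w, c i • v i ∈ sp K v (X.erase w) :=
      Submodule.sum_mem _ fun i hi => Submodule.smul_mem _ _ (mem_sp hi)
    have h3 : c w • v w ∈ sp K v (X.erase w) := by
      have := Submodule.sub_mem _ h1 h2
      simpa using this
    rw [Submodule.smul_mem_iff _ h0] at h3
    exact notMem_erase hX hw h3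
  apply hT
  rw [← Finset.sum_sdiff (s₁ := X ∩ T) (Finset.inter_subset_left)]
  have h4 : ∑ i ∈ X ∩ T, c i • v i = 0 := by
    apply Finset.sum_eq_zero
    intro i hi
    rw [Finset.mem_inter] at hi
    rw [hc i hi.1 hi.2, zero_smul]
  rw [h4, add_zero, Finset.sdiff_inter_self_left]
  exact Submodule.sum_mem _ fun i hi => Submodule.smul_mem _ _ (mem_sp hi)

/-- exchange -/
lemma sp_swap {v : ι → W} {X Y : Finset ι} {e w : ι} (hXY : X ⊆ Y) (hw : w ∈ X)
    (h1 : v e ∈ sp K v X) (h2 : v e ∉ sp K v (X.erase w)) :
    sp K v (insert e (Y.erase w)) = sp K v Y := by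
  have hX : X = insert w (X.erase w) := (Finset.insert_erase hw).symm
  have h3 : v w ∈ sp K v (insert e (X.erase w)) := by
    have h4 : v e ∈ Submodule.span K (insert (v w) (v '' ((X.erase w : Finset ι) : Set ι))) := by
      rw [hX] at h1
      rwa [sp, Finset.coe_insert, Set.image_insert_eq] at h1
    have h5 := mem_span_insert_exchange h4 h2
    rwa [sp, Finset.coe_insert, Set.image_insert_eq]
  apply le_antisymm
  · rw [Submodule.span_le]
    rintro _ ⟨i, hi, rfl⟩
    rw [Finset.mem_coe, Finset.mem_insert] at hi
    rcases hi with rfl | hi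
    · exact sp_mono hXY h1
    · exact mem_sp (Finset.mem_of_mem_erase hi)
  · rw [Submodule.span_le]
    rintro _ ⟨i, hi, rfl⟩
    rw [Finset.mem_coe] at hi
    by_cases hiw : i = w
    · subst hiw
      exact sp_mono (Finset.insert_subset_insert _ (Finset.erase_subset_erase _ hXY)) h3
    · exact mem_sp (Finset.mem_insert_of_mem (Finset.mem_erase.2 ⟨hiw, hi⟩))

/-! ### chains -/

variable (slot : ι → Finset S)

/-- the members of `F` with a slot in common with `e` -/
def conf (F : Finset ι) (e : ι) : Finset ι := F.filter fun f => ¬ Disjoint (slot e) (slot f)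

/-- the union of the second components -/
def UU : List (ι × Finset ι) → Finset ι
  | [] => ∅
  | p :: L => p.2 ∪ UU L

/-- all slots of the chain -/
def ZZ : List (ι × Finset ι) → Finset S
  | [] => ∅
  | p :: L => (slot p.1 ∪ p.2.biUnion slot) ∪ ZZ L

/-- maximal independent conflict-free sets -/
structure Base (v : ι → W) (m : ℕ) (F : Finset ι) : Prop where
  ind : LinearIndepOn K v (F : Set ι)
  free : ∀ e ∈ F, ∀ f ∈ F, e ≠ f → Disjoint (slot e) (slot f)
  card : F.card = m

variable (K) in
/-- `F` is compatible with the chain -/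
def Compat (v : ι → W) (m : ℕ) (F : Finset ι) : List (ι × Finset ι) → Prop
  | [] => Base (K := K) slot v m F
  | p :: L => Compat v m F L ∧ conf slot F p.1 = p.2 ∧ v p.1 ∉ sp K v (F \ UU L) ∧
      Disjoint (slot p.1) (ZZ slot L)

variable (K) in
/-- the chain is minimal step by step -/
def Chain (v : ι → W) (m : ℕ) : List (ι × Finset ι) → Prop
  | [] => True
  | p :: L => Chain v m L ∧ p.2.Nonempty ∧ (∃ F, Compat K slot v m F (p :: L)) ∧
      ∀ F' q, Compat K slot v m F' (q :: L) → p.2.card ≤ q.2.card

variable {slot}
variable {v : ι → W} {m : ℕ}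

lemma Compat.base {F : Finset ι} : ∀ {L : List (ι × Finset ι)}, Compat K slot v m F L →
    Base (K := K) slot v m F
  | [], h => h
  | _ :: _, h => Compat.base h.1

lemma conf_sub {F : Finset ι} {e : ι} : conf slot F e ⊆ F := Finset.filter_subset _ _

lemma Compat.sub {F : Finset ι} : ∀ {L : List (ι × Finset ι)}, Compat K slot v m F L → UU L ⊆ F
  | [], _ => by simp [UU]
  | p :: L, h => by
    rw [UU]
    apply Finset.union_subset
    · rw [← h.2.1]
      exact conf_sub
    · exact Compat.sub h.1

lemma slot_sub : ∀ {L : List (ι × Finset ι)} {w : ι}, w ∈ UU L → slot w ⊆ ZZ slot L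
  | [], w, h => by simp [UU] at h
  | p :: L, w, h => by
    rw [UU, Finset.mem_union] at h
    rw [ZZ]
    rcases h with h | h
    · intro x hx
      rw [Finset.mem_union, Finset.mem_union]
      exact Or.inl (Or.inr (Finset.mem_biUnion.2 ⟨w, h, hx⟩))
    · exact (slot_sub h).trans Finset.subset_union_right

lemma Compat.disj {F : Finset ι} {p : ι × Finset ι} {L : List (ι × Finset ι)}
    (h : Compat K slot v m F (p :: L)) : Disjoint p.2 (UU L) := by
  rw [Finset.disjoint_left]
  intro w hw hwU
  rw [← h.2.1, conf, Finset.mem_filter] at hw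
  exact hw.2 (Finset.disjoint_of_subset_right (slot_sub hwU) h.2.2.2)

lemma card_UU {F : Finset ι} : ∀ {L : List (ι × Finset ι)}, Compat K slot v m F L →
    Chain K slot v m L → L.length ≤ (UU L).card
  | [], _, _ => by simp
  | p :: L, h, hC => by
    rw [UU, Finset.card_union_of_disjoint h.disj, List.length_cons]
    have := card_UU h.1 hC.1
    have := hC.2.1.card_pos
    omega

lemma card_ZZ (hs : ∀ e, (slot e).card ≤ 2) {F : Finset ι} : ∀ {L : List (ι × Finset ι)},
    Compat K slot v m F L → Chain K slot v m L → (ZZ slot L).card ≤ 3 * (UU L).card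
  | [], _, _ => by simp [ZZ]
  | p :: L, h, hC => by
    have h1 := card_ZZ hs h.1 hC.1
    rw [UU, Finset.card_union_of_disjoint h.disj, ZZ]
    have h2 := hC.2.1.card_pos
    have h3 : (slot p.1 ∪ p.2.biUnion slot).card ≤ 2 + p.2.card := by
      have h4 : slot p.1 ∪ p.2.biUnion slot ⊆ slot p.1 ∪ p.2.biUnion fun w => slot w \ slot p.1 := by
        intro x hx
        rw [Finset.mem_union] at hx ⊢
        by_cases hxp : x ∈ slot p.1
        · exact Or.inl hxp
        · rcases hx with hx | hx
          · exact Or.inl hx
          · right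
            rw [Finset.mem_biUnion] at hx ⊢
            obtain ⟨w, hw, hxw⟩ := hx
            exact ⟨w, hw, Finset.mem_sdiff.2 ⟨hxw, hxp⟩⟩
      refine (Finset.card_le_card h4).trans ((Finset.card_union_le _ _).trans ?_)
      have h5 : (p.2.biUnion fun w => slot w \ slot p.1).card ≤ p.2.card * 1 := by
        apply Finset.card_biUnion_le_card_mul
        intro w hw
        rw [← h.2.1, conf, Finset.mem_filter, Finset.not_disjoint_iff] at hw
        obtain ⟨-, x, hx1, hx2⟩ := hw
        have h6 : (slot w ∩ slot p.1).Nonempty := ⟨x, Finset.mem_inter.2 ⟨hx2, hx1⟩⟩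
        have h7 := Finset.card_sdiff_add_card_inter (slot w) (slot p.1)
        have h8 := hs w
        have h9 := h6.card_pos
        omega
      have := hs p.1
      omega
    have h4 := Finset.card_union_le (slot p.1 ∪ p.2.biUnion slot) (ZZ slot L)
    omega

/-- exchange in a maximal set -/
lemma Base.swap {F X : Finset ι} (hF : Base (K := K) slot v m F) {e w : ι} (hs : (slot e).Nonempty)
    (hXF : X ⊆ F) (hw : w ∈ X) (h1 : v e ∈ sp K v X) (h2 : v e ∉ sp K v (X.erase w))
    (hc : conf slot F e = ∅) : Base (K := K) slot v m (insert e (F.erase w)) := by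
  have heF : e ∉ F := by
    intro he
    have : e ∈ conf slot F e := by
      rw [conf, Finset.mem_filter]
      refine ⟨he, ?_⟩
      rw [disjoint_self]
      exact hs.ne_empty
    rw [hc] at this
    exact absurd this (Finset.notMem_empty _)
  have hce : ∀ f ∈ F, Disjoint (slot e) (slot f) := by
    intro f hf
    by_contra hcon
    have : f ∈ conf slot F e := by
      rw [conf, Finset.mem_filter]
      exact ⟨hf, hcon⟩
    rw [hc] at this
    exact absurd this (Finset.notMem_empty _)
  refine ⟨?_, ?_, ?_⟩
  · rw [Finset.coe_insert]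
    apply LinearIndepOn.insert
    · exact hF.ind.mono (by exact_mod_cast Finset.erase_subset _ _)
    · intro h3
      have h4 := sp_swap hXF hw h1 h2
      have h5 : v w ∈ sp K v (insert e (F.erase w)) := by
        rw [h4]
        exact mem_sp (hXF hw)
      have h6 : sp K v (insert e (F.erase w)) ≤ sp K v (F.erase w) := by
        rw [Submodule.span_le]
        rintro _ ⟨i, hi, rfl⟩
        rw [Finset.mem_coe, Finset.mem_insert] at hi
        rcases hi with rfl | hi
        · exact h3
        · exact mem_sp hi
      exact notMem_erase hF.ind (hXF hw) (h6 h5)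
  · intro a ha b hb hab
    rw [Finset.mem_insert] at ha hb
    rcases ha with rfl | ha
    · rcases hb with rfl | hb
      · exact absurd rfl hab
      · exact hce b (Finset.mem_of_mem_erase hb)
    · rcases hb with rfl | hb
      · exact (hce a (Finset.mem_of_mem_erase ha)).symm
      · exact hF.free a (Finset.mem_of_mem_erase ha) b (Finset.mem_of_mem_erase hb) hab
  · rw [Finset.card_insert_of_notMem (fun h => heF (Finset.mem_of_mem_erase h)),
      Finset.card_erase_of_mem (hXF hw)]
    have := hF.card
    have : 0 < F.card := Finset.card_pos.2 ⟨w, hXF hw⟩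
    omega

lemma insert_sdiff {F U : Finset ι} {e w : ι} (he : e ∉ U) :
    insert e (F.erase w) \ U = insert e ((F \ U).erase w) := by
  rw [Finset.insert_sdiff_of_notMem _ he, Finset.erase_sdiff_comm]

lemma conf_swap {F : Finset ι} {e w a : ι} (he : Disjoint (slot a) (slot e)) :
    conf slot (insert e (F.erase w)) a = (conf slot F a).erase w := by
  unfold conf
  rw [Finset.filter_insert, if_neg (not_not.2 he), Finset.filter_erase]

lemma Compat.swap {F X : Finset ι} {e w : ι} (hs : (slot e).Nonempty) (hw : w ∈ X)
    (h1 : v e ∈ sp K v X) (h2 : v e ∉ sp K v (X.erase w)) (hc : conf slot F e = ∅) :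
    ∀ {L : List (ι × Finset ι)}, Compat K slot v m F L → X ⊆ F \ UU L →
      Disjoint (slot e) (ZZ slot L) → Compat K slot v m (insert e (F.erase w)) L
  | [], h, hX, _ => Base.swap h hs (hX.trans Finset.sdiff_subset) hw h1 h2 hc
  | p :: L, h, hX, hZ => by
    have hX' : X ⊆ F \ UU L := by
      refine hX.trans (Finset.sdiff_subset_sdiff (Finset.Subset.refl _) ?_)
      rw [UU]
      exact Finset.subset_union_right
    have hZ' : Disjoint (slot e) (ZZ slot L) := by
      refine Finset.disjoint_of_subset_right ?_ hZ
      rw [ZZ]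
      exact Finset.subset_union_right
    have heU : e ∉ UU L := by
      intro he
      have h3 := slot_sub (slot := slot) he
      obtain ⟨x, hx⟩ := hs
      exact (Finset.disjoint_left.1 hZ' hx) (h3 hx)
    have hwp : w ∉ p.2 := by
      intro hwp
      have := hX hw
      rw [Finset.mem_sdiff, UU, Finset.mem_union] at this
      exact this.2 (Or.inl hwp)
    refine ⟨Compat.swap hs hw h1 h2 hc h.1 hX' hZ', ?_, ?_, h.2.2.2⟩
    · rw [conf_swap, h.2.1, Finset.erase_eq_of_notMem hwp]
      refine (Finset.disjoint_of_subset_right ?_ hZ).symm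
      rw [ZZ]
      exact Finset.subset_union_left.trans Finset.subset_union_left
    · rw [insert_sdiff heU, sp_swap hX' hw h1 h2]
      exact h.2.2.1

/-- a free element contradicts minimality -/
lemma no_free (hmax : ∀ F : Finset ι, LinearIndepOn K v (F : Set ι) →
      (∀ e ∈ F, ∀ f ∈ F, e ≠ f → Disjoint (slot e) (slot f)) → F.card ≤ m)
    {F : Finset ι} {e : ι} (hs : (slot e).Nonempty) (hc : conf slot F e = ∅) :
    ∀ {L : List (ι × Finset ι)}, Chain K slot v m L → Compat K slot v m F L →
      Disjoint (slot e) (ZZ slot L) → v e ∉ sp K v (F \ UU L) → False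
  | [], _, h, _, hsp => by
    have hF : Base (K := K) slot v m F := h
    rw [UU, Finset.sdiff_empty] at hsp
    have heF : e ∉ F := fun he => hsp (mem_sp he)
    have hce : ∀ f ∈ F, Disjoint (slot e) (slot f) := by
      intro f hf
      by_contra hcon
      have : f ∈ conf slot F e := by
        rw [conf, Finset.mem_filter]
        exact ⟨hf, hcon⟩
      rw [hc] at this
      exact absurd this (Finset.notMem_empty _)
    have h1 := hmax (insert e F) (by
      rw [Finset.coe_insert]
      exact hF.ind.insert hsp) (by
      intro a ha b hb hab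
      rw [Finset.mem_insert] at ha hb
      rcases ha with rfl | ha
      · rcases hb with rfl | hb
        · exact absurd rfl hab
        · exact hce b hb
      · rcases hb with rfl | hb
        · exact (hce a ha).symm
        · exact hF.free a ha b hb hab)
    rw [Finset.card_insert_of_notMem heF, hF.card] at h1
    omega
  | p :: L, hC, h, hZ, hsp => by
    have hZ' : Disjoint (slot e) (ZZ slot L) := by
      refine Finset.disjoint_of_subset_right ?_ hZ
      rw [ZZ]
      exact Finset.subset_union_right
    by_cases h1 : v e ∈ sp K v (F \ UU L)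
    · have h2 : v e ∉ sp K v ((F \ UU L) \ p.2) := by
        rwa [_root_.sdiff_sdiff_left, Finset.sup_eq_union, Finset.union_comm, ← UU]
      obtain ⟨w, hwp, hwX, h3⟩ := exists_w
        (h.base.ind.mono (by exact_mod_cast Finset.sdiff_subset)) h1 h2
      have h4 := Compat.swap hs hwX h1 h3 hc h.1 (Finset.Subset.refl _) hZ'
      have heU : e ∉ UU L := by
        intro he
        have h3 := slot_sub (slot := slot) he
        obtain ⟨x, hx⟩ := hs
        exact (Finset.disjoint_left.1 hZ' hx) (h3 hx)
      have h5 : Compat K slot v m (insert e (F.erase w)) ((p.1, p.2.erase w) :: L) := by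
        refine ⟨h4, ?_, ?_, h.2.2.2⟩
        · rw [conf_swap, h.2.1]
          refine (Finset.disjoint_of_subset_right ?_ hZ).symm
          rw [ZZ]
          exact Finset.subset_union_left.trans Finset.subset_union_left
        · rw [insert_sdiff heU, sp_swap (Finset.Subset.refl _) hwX h1 h3]
          exact h.2.2.1
      have h6 := hC.2.2.2 _ _ h5
      have h7 : (p.2.erase w).card < p.2.card := Finset.card_erase_lt_of_mem hwp
      simp only at h6
      omega
    · exact no_free hmax hs hc hC.1 h.1 hZ' h1

/-- **Haxell's argument for bases.** -/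
theorem exists_base [Finite ι] (v : ι → W) (slot : ι → Finset S) (r : ℕ)
    (hs : ∀ e, (slot e).card = 2)
    (hC : ∀ (X : Finset ι) (Z : Finset S), LinearIndepOn K v (X : Set ι) → X.card < r →
      Z.card + 3 ≤ 3 * (r - X.card) → ∃ e, v e ∉ sp K v X ∧ Disjoint (slot e) Z) :
    ∃ F : Finset ι, LinearIndepOn K v (F : Set ι) ∧
      (∀ e ∈ F, ∀ f ∈ F, e ≠ f → Disjoint (slot e) (slot f)) ∧ r ≤ F.card := by
  classical
  have hne : ∀ e, (slot e).Nonempty := fun e => by
    rw [← Finset.card_pos, hs e]
    norm_num
  by_contra hcon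
  push Not at hcon
  -- a maximal set
  set P : Finset ι → Prop := fun F => LinearIndepOn K v (F : Set ι) ∧
    (∀ e ∈ F, ∀ f ∈ F, e ≠ f → Disjoint (slot e) (slot f)) with hP
  have hP0 : P ∅ := by
    refine ⟨?_, fun e he => absurd he (Finset.notMem_empty _)⟩
    rw [Finset.coe_empty]
    exact linearIndepOn_empty _ _
  obtain ⟨F0, hF0, hF0max⟩ : ∃ F, P F ∧ ∀ F', P F' → F'.card ≤ F.card := by
    have := Fintype.ofFinite ι
    obtain ⟨F, hF, hm⟩ := Finset.exists_max_image (Finset.univ.filter P) Finset.card
      ⟨∅, by simpa using hP0⟩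
    rw [Finset.mem_filter] at hF
    exact ⟨F, hF.2, fun F' hF' => hm F' (by simpa using hF')⟩
  set m := F0.card with hm
  have hmr : m < r := hcon F0 hF0.1 hF0.2
  have hmax : ∀ F : Finset ι, LinearIndepOn K v (F : Set ι) →
      (∀ e ∈ F, ∀ f ∈ F, e ≠ f → Disjoint (slot e) (slot f)) → F.card ≤ m :=
    fun F h1 h2 => hF0max F ⟨h1, h2⟩
  have key : ∀ n : ℕ, ∃ L : List (ι × Finset ι), L.length = n ∧ Chain K slot v m L ∧
      ∃ F, Compat K slot v m F L := by
    intro n
    induction n with
    | zero => exact ⟨[], rfl, trivial, F0, ⟨hF0.1, hF0.2, rfl⟩⟩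
    | succ n ih =>
      obtain ⟨L, hL, hCh, F, hF⟩ := ih
      have hsub := hF.sub
      have hcard : (F \ UU L).card = m - (UU L).card := by
        rw [Finset.card_sdiff_of_subset hsub, hF.base.card]
      have hUm : (UU L).card ≤ m := by
        rw [← hF.base.card]
        exact Finset.card_le_card hsub
      have hZ := card_ZZ (fun e => (hs e).le) hF hCh
      obtain ⟨e, he1, he2⟩ := hC (F \ UU L) (ZZ slot L)
        (hF.base.ind.mono (by exact_mod_cast Finset.sdiff_subset)) (by omega) (by omega)
      -- choose the extension with the fewest conflicts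
      set N : Set ℕ := {k | ∃ F' q, Compat K slot v m F' (q :: L) ∧ q.2.card = k} with hN
      have hNne : N.Nonempty := ⟨_, F, (e, conf slot F e), ⟨hF, rfl, he1, he2⟩, rfl⟩
      obtain ⟨F', q, hq, hqk⟩ := Nat.sInf_mem hNne
      have hqmin : ∀ F'' q', Compat K slot v m F'' (q' :: L) → q.2.card ≤ q'.2.card := by
        intro F'' q' h
        rw [hqk]
        exact Nat.sInf_le ⟨F'', q', h, rfl⟩
      refine ⟨q :: L, by rw [List.length_cons, hL], ⟨hCh, ?_, ⟨F', hq⟩, hqmin⟩, F', hq⟩
      by_contra hemp
      rw [Finset.not_nonempty_iff_eq_empty] at hemp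
      refine no_free hmax (hne q.1) ?_ hCh hq.1 hq.2.2.2 hq.2.2.1
      rw [hq.2.1, hemp]
  obtain ⟨L, hL, hCh, F, hF⟩ := key (m + 1)
  have h1 := card_UU hF hCh
  have h2 := Finset.card_le_card hF.sub
  rw [hF.base.card] at h2
  omega

end

end Pool.Agent.U122.HX
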