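import Pool.Agent.U122.HX.Graph
import Pool.Agent.R759.HCFinal

/-!
# Hamiltonian cycles if the connection set contains a subgroup with at least 18 elements
-/

set_option autoImplicit false
set_option linter.unusedSectionVars false

namespace Pool.Agent.U122.HX

open Finset Classical

section

variable {G : Type*} [Group G] [Fintype G] {H : Subgroup G} {B : Finset G}

/-- a matching which connects the cosets and has an even number of ends in every coset -/
theorem exists_even (hB : Gen H B) (hmin : ∀ B' ⊆ B, Gen H B' → B' = B) (hBne : B.Nonempty)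
    (hBH : ∀ b ∈ B, b ∉ H) (hk : 18 ≤ Nat.card H) :
    ∃ M : Finset (G × B), (∀ e ∈ M, ∀ f ∈ M, e ≠ f →
        Disjoint ({e.1, e.1 * (e.2 : G)} : Finset G) {f.1, f.1 * (f.2 : G)}) ∧
      (∑ e ∈ M, (dl H e.1 + dl H (e.1 * (e.2 : G))) = 0) ∧
      ∀ Y : Set G, (∀ x ∈ Y, ∀ h ∈ H, x * h ∈ Y) →
        (∀ e ∈ M, (e.1 ∈ Y ↔ e.1 * (e.2 : G) ∈ Y)) → (1 : G) ∈ Y → ∀ g, g ∈ Y := by
  obtain ⟨F, hF, hsp⟩ := exists_trees B hB hmin hBne hBH hk
  obtain ⟨U, hU⟩ : ∃ U : Submodule (ZMod 2) (WW H), U = sp (ZMod 2) (vec H B) F := ⟨_, rfl⟩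
  rw [← hU] at hsp
  -- the parity vector of the first tree
  set p : G ⧸ H → ZMod 2 := ∑ e ∈ F.filter (fun e => e.2 = false), bd H B e with hp
  have hpU : (Pi.single true p : WW H) ∈ U := by
    have h1 : (Pi.single true p : WW H) =
        ∑ e ∈ F.filter (fun e => e.2 = false), Pi.single true (bd H B e) := by
      rw [hp]
      exact map_sum (AddMonoidHom.single (fun _ : Bool => G ⧸ H → ZMod 2) true) _ _
    rw [h1]
    exact Submodule.sum_mem _ fun e _ => hsp true _ _
  obtain ⟨c, hc⟩ := (Submodule.mem_span_image_finset_iff_exists_fun' (ZMod 2)).1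
    (show (Pi.single true p : WW H) ∈ Submodule.span (ZMod 2) (vec H B '' (F : Set (Arc B))) by
      rw [hU] at hpU; exact hpU)
  set M' : Finset (Arc B) := F.filter fun e => e.2 = false ∨ (e.2 = true ∧ c e = 1) with hM'
  have hinj : ∀ e ∈ M', ∀ f ∈ M', e.1 = f.1 → e = f := by
    intro e he f hf hef
    by_contra hne
    have h1 := hF e (Finset.mem_filter.1 he).1 f (Finset.mem_filter.1 hf).1 hne
    rw [slot, slot, hef] at h1
    rw [Finset.disjoint_left] at h1
    exact h1 (Finset.mem_insert_self _ _) (Finset.mem_insert_self _ _)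
  refine ⟨M'.image Prod.fst, ?_, ?_, ?_⟩
  · intro e he f hf hne
    rw [Finset.mem_image] at he hf
    obtain ⟨e', he', rfl⟩ := he
    obtain ⟨f', hf', rfl⟩ := hf
    exact hF e' (Finset.mem_filter.1 he').1 f' (Finset.mem_filter.1 hf').1
      (fun h => hne (by rw [h]))
  · rw [Finset.sum_image (fun e he f hf h => hinj e he f hf h)]
    show ∑ e ∈ M', bd H B e = 0
    have h1 : M' = F.filter (fun e => e.2 = false) ∪ F.filter (fun e => e.2 = true ∧ c e = 1) := by
      rw [hM', Finset.filter_or]
    have h2 : Disjoint (F.filter (fun e => e.2 = false))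
        (F.filter (fun e => e.2 = true ∧ c e = 1)) := by
      rw [Finset.disjoint_left]
      intro e he hf
      rw [Finset.mem_filter] at he hf
      rw [he.2] at hf
      exact absurd hf.2.1 (by decide)
    rw [h1, Finset.sum_union h2, ← hp]
    have h3 : ∑ e ∈ F.filter (fun e => e.2 = true ∧ c e = 1), bd H B e = p := by
      have h4 := congrFun hc true
      rw [Pi.single_eq_same, Finset.sum_apply] at h4
      rw [← h4, Finset.sum_filter]
      refine Finset.sum_congr rfl fun e _ => ?_
      have h5 : (c e • vec H B e) true = c e • (vec H B e true) := rfl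
      rw [h5, vec]
      obtain ⟨e1, l⟩ := e
      cases l with
      | false => simp
      | true =>
        rw [Pi.single_eq_same]
        have h6 : c (e1, true) = 0 ∨ c (e1, true) = 1 := by
          have : ∀ z : ZMod 2, z = 0 ∨ z = 1 := by decide
          exact this _
        rcases h6 with h6 | h6 <;> simp [h6]
    rw [h3, add_self]
  · intro Y hY hYM h1Y g
    by_contra hg
    -- the sum over the cosets in `Y`, at the label `false`
    set Y' : Finset (G ⧸ H) := univ.filter fun q => ∃ x ∈ Y, (x : G ⧸ H) = q with hY'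
    have hmem : ∀ x : G, (x : G ⧸ H) ∈ Y' ↔ x ∈ Y := by
      intro x
      rw [hY', Finset.mem_filter]
      constructor
      · rintro ⟨-, y, hy, hyx⟩
        rw [QuotientGroup.eq] at hyx
        have := hY y hy _ hyx
        rwa [mul_inv_cancel_left] at this
      · intro hx
        exact ⟨Finset.mem_univ _, x, hx, rfl⟩
    let f : WW H →ₗ[ZMod 2] ZMod 2 :=
      { toFun := fun w => ∑ q ∈ Y', w false q
        map_add' := fun w w' => by
          rw [← Finset.sum_add_distrib]
          rfl
        map_smul' := fun a w => by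
          rw [RingHom.id_apply, smul_eq_mul, Finset.mul_sum]
          rfl }
    have hfs : ∀ x : G, ∑ q ∈ Y', dl H x q = if x ∈ Y then 1 else 0 := by
      intro x
      have h1 : ∀ q ∈ Y', dl H x q = if q = (x : G ⧸ H) then 1 else 0 := by
        intro q _
        rw [dl, Pi.single_apply]
      rw [Finset.sum_congr rfl h1, Finset.sum_ite_eq']
      simp only [hmem]
    have hf0 : U ≤ LinearMap.ker f := by
      suffices h : ∀ e ∈ F, vec H B e ∈ LinearMap.ker f by
        intro w hw
        have hw' : w ∈ sp (ZMod 2) (vec H B) F := by rwa [← hU]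
        refine (Submodule.span_le (p := LinearMap.ker f)).2 ?_ hw'
        rintro _ ⟨e, he, rfl⟩
        exact h e (by exact_mod_cast he)
      intro e he
      rw [LinearMap.mem_ker]
      show ∑ q ∈ Y', vec H B e false q = 0
      obtain ⟨e1, l⟩ := e
      cases l with
      | true =>
        apply Finset.sum_eq_zero
        intro q _
        rw [vec]
        simp
      | false =>
        have h1 : ∀ q ∈ Y', vec H B (e1, false) false q = dl H e1.1 q + dl H (e1.1 * (e1.2 : G)) q := by
          intro q _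
          rw [vec, Pi.single_eq_same]
          rfl
        rw [Finset.sum_congr rfl h1, Finset.sum_add_distrib, hfs, hfs]
        have h2 : e1 ∈ M'.image Prod.fst := by
          rw [Finset.mem_image]
          exact ⟨(e1, false), Finset.mem_filter.2 ⟨he, Or.inl rfl⟩, rfl⟩
        have h3 := hYM e1 h2
        by_cases h4 : e1.1 ∈ Y
        · rw [if_pos h4, if_pos (h3.1 h4)]
          rfl
        · rw [if_neg h4, if_neg (fun h => h4 (h3.2 h)), add_zero]
    have h1 := hf0 (hsp false ((1 : G) : G ⧸ H) (g : G ⧸ H))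
    rw [LinearMap.mem_ker] at h1
    have h2 : f (Pi.single false (Pi.single ((1 : G) : G ⧸ H) 1 + Pi.single (g : G ⧸ H) 1)) = 1 := by
      show ∑ q ∈ Y', (Pi.single false (Pi.single ((1 : G) : G ⧸ H) 1 + Pi.single (g : G ⧸ H) 1) :
        WW H) false q = 1
      have h3 : ∀ q ∈ Y', (Pi.single false (Pi.single ((1 : G) : G ⧸ H) 1 +
          Pi.single (g : G ⧸ H) 1) : WW H) false q = dl H 1 q + dl H g q := by
        intro q _
        rw [Pi.single_eq_same]
        rfl
      rw [Finset.sum_congr rfl h3, Finset.sum_add_distrib, hfs, hfs, if_pos h1Y, if_neg hg, add_zero]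
    rw [h2] at h1
    exact absurd h1 (by decide)

open Pool.Agent.R759.HC in
/-- **the main theorem** -/
theorem cyc_of_subgroup (H : Subgroup G) (A : Set G) (hA : ∀ x ∈ A, x⁻¹ ∈ A)
    (hgen : Subgroup.closure A = ⊤) (hHA : ∀ h ∈ H, h ≠ 1 → h ∈ A) (hk : 18 ≤ Nat.card H) :
    ∃ σ : Equiv.Perm G, CycOn A Set.univ σ := by
  have hG : 1 < Nat.card G := by
    have := Subgroup.card_le_card_group H
    omega
  -- it is enough to find a permutation as in `assemble`
  have fin : ∀ (S : Finset G) (μ : G → G), (∀ z ∈ S, z⁻¹ * μ z ∈ A) →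
      (∃ (σ : Equiv.Perm G), (∀ x, σ x = μ x ∧ x ∈ S ∨ x⁻¹ * σ x ∈ H) ∧ ∀ x y, σ.SameCycle x y) →
      ∃ σ : Equiv.Perm G, CycOn A Set.univ σ := by
    rintro S μ hμ ⟨σ, h1, h2⟩
    refine ⟨σ, ⟨fun x hx => absurd (Set.mem_univ x) hx, fun x _ => Set.mem_univ _, ?_,
      fun x _ y _ => h2 x y⟩⟩
    intro x _
    rcases h1 x with ⟨h3, h4⟩ | h3
    · rw [h3]
      exact hμ x h4
    · apply hHA _ h3
      intro h4
      have h5 : σ x = x := by
        rw [inv_mul_eq_one] at h4
        exact h4.symm
      have h6 : ∀ y, y = x := by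
        intro y
        obtain ⟨i, hi⟩ := h2 x y
        rw [← hi]
        exact Equiv.Perm.zpow_apply_eq_self_of_apply_eq_self h5 i
      have h7 : Nat.card G ≤ 1 := by
        rw [Nat.card_eq_fintype_card, Fintype.card_le_one_iff]
        intro a b
        rw [h6 a, h6 b]
      omega
  by_cases hHtop : H = ⊤
  · refine fin ∅ id (fun z hz => absurd hz (Finset.notMem_empty _)) (assemble H ∅ id
      (fun z hz => absurd hz (Finset.notMem_empty _)) (fun z hz => absurd hz (Finset.notMem_empty _))
      (fun z hz => absurd hz (Finset.notMem_empty _)) ?_ ?_)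
    · rintro T ⟨q, hq⟩
      have : T = ∅ := by
        ext z
        rw [hq]
        simp
      rw [this]
      exact ⟨0, rfl⟩
    · intro Y hY _ h1 g
      have := hY 1 h1 g (by rw [hHtop]; exact Subgroup.mem_top g)
      rwa [one_mul] at this
  -- a minimal set of generators modulo `H`
  set P : Finset G → Prop := fun B => (∀ b ∈ B, b ∈ A ∧ b ∉ H) ∧ Gen H B with hP
  obtain ⟨B, hBP, hBm⟩ : ∃ B, P B ∧ ∀ B', P B' → B.card ≤ B'.card := by
    obtain ⟨B, hB, hm⟩ := Finset.exists_min_image (univ.filter P) Finset.card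
      ⟨univ.filter fun b => b ∈ A ∧ b ∉ H, by
        rw [Finset.mem_filter]
        refine ⟨Finset.mem_univ _, fun b hb => (Finset.mem_filter.1 hb).2, ?_, ?_⟩
        · intro b hb
          rw [Finset.mem_filter] at hb ⊢
          exact ⟨Finset.mem_univ _, hA b hb.2.1, fun h => hb.2.2 (by
            have := H.inv_mem h
            rwa [inv_inv] at this)⟩
        · rw [eq_top_iff, ← hgen, Subgroup.closure_le]
          intro x hx
          apply Subgroup.subset_closure
          by_cases h : x ∈ H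
          · exact Or.inl h
          · right
            rw [Finset.mem_coe, Finset.mem_filter]
            exact ⟨Finset.mem_univ _, hx, h⟩⟩
    rw [Finset.mem_filter] at hB
    exact ⟨B, hB.2, fun B' h' => hm B' (by simpa using h')⟩
  obtain ⟨hBA, hBgen⟩ := hBP
  have hmin : ∀ B' ⊆ B, Gen H B' → B' = B := by
    intro B' hB' hg
    exact Finset.eq_of_subset_of_card_le hB' (hBm B' ⟨fun b hb => hBA b (hB' hb), hg⟩)
  have hBne : B.Nonempty := by
    rw [Finset.nonempty_iff_ne_empty]
    intro h
    apply hHtop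
    have h1 := hBgen.2
    rw [h, Finset.coe_empty, Set.union_empty, Subgroup.closure_eq] at h1
    exact h1
  obtain ⟨M, hM1, hM2, hM3⟩ := exists_even hBgen hmin hBne (fun b hb => (hBA b hb).2) hk
  set sl : G × B → Finset G := fun e => {e.1, e.1 * (e.2 : G)} with hsl
  set S : Finset G := M.biUnion sl with hS
  have hb1 : ∀ e : G × B, e.1 ≠ e.1 * (e.2 : G) := by
    intro e h
    rw [left_eq_mul] at h
    exact (hBA _ e.2.2).2 (by rw [h]; exact H.one_mem)
  -- the edge of a vertex
  have hne : Nonempty (G × B) := by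
    obtain ⟨b0, hb0⟩ := hBne
    exact ⟨(1, ⟨b0, hb0⟩)⟩
  have hex : ∀ z ∈ S, ∃ e ∈ M, z ∈ sl e := fun z hz => Finset.mem_biUnion.1 hz
  choose! E hE1 hE2 using hex
  have huniq : ∀ e ∈ M, ∀ z ∈ sl e, E z = e := by
    intro e he z hz
    have hzS : z ∈ S := Finset.mem_biUnion.2 ⟨e, he, hz⟩
    by_contra hne
    exact (Finset.disjoint_left.1 (hM1 _ (hE1 z hzS) e he hne) (hE2 z hzS)) hz
  set μ : G → G := fun z => if z = (E z).1 then (E z).1 * ((E z).2 : G) else (E z).1 with hμ
  have hμ1 : ∀ e ∈ M, μ e.1 = e.1 * (e.2 : G) := by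
    intro e he
    have h1 := huniq e he e.1 (Finset.mem_insert_self _ _)
    simp only [hμ, h1, if_true]
  have hμ2 : ∀ e ∈ M, μ (e.1 * (e.2 : G)) = e.1 := by
    intro e he
    have h1 := huniq e he (e.1 * (e.2 : G)) (Finset.mem_insert_of_mem (Finset.mem_singleton_self _))
    simp only [hμ, h1]
    rw [if_neg (hb1 e).symm]
  have hcase : ∀ z ∈ S, ∃ e ∈ M, (z = e.1 ∧ μ z = e.1 * (e.2 : G)) ∨
      (z = e.1 * (e.2 : G) ∧ μ z = e.1) := by
    intro z hz
    refine ⟨E z, hE1 z hz, ?_⟩
    have h1 := hE2 z hz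
    rw [hsl] at h1
    simp only [Finset.mem_insert, Finset.mem_singleton] at h1
    rcases h1 with h1 | h1
    · left
      refine ⟨h1, ?_⟩
      have := hμ1 _ (hE1 z hz)
      rwa [← h1] at this ⊢
    · right
      refine ⟨h1, ?_⟩
      have := hμ2 _ (hE1 z hz)
      rwa [← h1] at this
  have hm1 : ∀ e ∈ M, e.1 ∈ S := fun e he =>
    Finset.mem_biUnion.2 ⟨e, he, Finset.mem_insert_self _ _⟩
  have hm2 : ∀ e ∈ M, e.1 * (e.2 : G) ∈ S := fun e he =>
    Finset.mem_biUnion.2 ⟨e, he, Finset.mem_insert_of_mem (Finset.mem_singleton_self _)⟩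
  refine fin S μ ?_ (assemble H S μ ?_ ?_ ?_ ?_ ?_)
  · intro z hz
    obtain ⟨e, he, ⟨h1, h2⟩ | ⟨h1, h2⟩⟩ := hcase z hz
    · rw [h2, h1, inv_mul_cancel_left]
      exact (hBA _ e.2.2).1
    · rw [h2, h1, mul_inv_rev, inv_mul_cancel_right]
      exact hA _ (hBA _ e.2.2).1
  · intro z hz
    obtain ⟨e, he, ⟨h1, h2⟩ | ⟨h1, h2⟩⟩ := hcase z hz
    · rw [h2]
      exact hm2 e he
    · rw [h2]
      exact hm1 e he
  · intro z hz
    obtain ⟨e, he, ⟨h1, h2⟩ | ⟨h1, h2⟩⟩ := hcase z hz
    · rw [h2, hμ2 e he, h1]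
    · rw [h2, hμ1 e he, h1]
  · intro z hz
    obtain ⟨e, he, ⟨h1, h2⟩ | ⟨h1, h2⟩⟩ := hcase z hz
    · rw [h2, h1]
      exact (hb1 e).symm
    · rw [h2, h1]
      exact hb1 e
  · rintro T ⟨q, hq⟩
    have h1 : (T.card : ZMod 2) = 0 := by
      have h2 : T = S.filter fun z => ((z : G) : G ⧸ H) = q := by
        ext z
        rw [hq, Finset.mem_filter]
      have h3 : (T.card : ZMod 2) = ∑ z ∈ S, dl H z q := by
        rw [h2, Finset.card_filter]
        push_cast
        refine Finset.sum_congr rfl fun z _ => ?_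
        rw [dl, Pi.single_apply]
        simp only [eq_comm]
      rw [h3, hS, Finset.sum_biUnion (fun e he f hf hne => hM1 e he f hf hne)]
      have h4 : ∀ e ∈ M, ∑ z ∈ sl e, dl H z q = (dl H e.1 + dl H (e.1 * (e.2 : G))) q := by
        intro e _
        rw [hsl]
        simp only
        rw [Finset.sum_pair (hb1 e)]
        rfl
      rw [Finset.sum_congr rfl h4, ← Finset.sum_apply, hM2]
      rfl
    rw [ZMod.natCast_eq_zero_iff] at h1
    exact even_iff_two_dvd.2 h1
  · intro Y hY hYS h1 g
    refine hM3 Y hY (fun e he => ?_) h1 g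
    constructor
    · intro h
      have := hYS _ (hm1 e he) h
      rwa [hμ1 e he] at this
    · intro h
      have := hYS _ (hm2 e he) h
      rwa [hμ2 e he] at this

end

end Pool.Agent.U122.HX
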